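import Mathlib
import Pool.Agent.H548R3.MB.Eff2

set_option autoImplicit false

open Complex Topology Filter Metric MeasureTheory Set N62a1eb23

namespace Pool.Agent.Run7.h598.PP

open Pool.Agent.H713R2 Pool.Agent.H712R2 Pool.Agent.H713R2.AR Pool.Agent.H548R3.MB

/-- A holomorphic function without zeros on the unit disc has a holomorphic `d`-th root. -/
theorem exists_root {d : ℕ} (hd : d ≠ 0) {h : ℂ → ℂ} (hh : DifferentiableOn ℂ h (ball 0 1))
    (hne : ∀ z ∈ ball (0 : ℂ) 1, h z ≠ 0) :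
    ∃ r : ℂ → ℂ, DifferentiableOn ℂ r (ball 0 1) ∧ ∀ z ∈ ball (0 : ℂ) 1, r z ^ d = h z := by
  have h00 : (0 : ℂ) ∈ ball (0 : ℂ) 1 := mem_ball_self one_pos
  have hdd : DifferentiableOn ℂ (deriv h) (ball 0 1) := hh.deriv isOpen_ball
  have hg : DifferentiableOn ℂ (fun z => deriv h z / h z) (ball 0 1) := hdd.div hh hne
  obtain ⟨l, hl0, hl⟩ := (hg.isExactOn_ball).with_val_at 0 (Complex.log (h 0))
  have hld : DifferentiableOn ℂ l (ball 0 1) :=
    fun z hz => (hl z hz).differentiableAt.differentiableWithinAt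
  have hu : DifferentiableOn ℂ (fun z => cexp (-l z) * h z) (ball 0 1) := (hld.neg.cexp).mul hh
  have hderiv : EqOn (deriv (fun z => cexp (-l z) * h z)) 0 (ball 0 1) := by
    intro z hz
    have hhz : HasDerivAt h (deriv h z) z :=
      ((hh z hz).differentiableAt (isOpen_ball.mem_nhds hz)).hasDerivAt
    have h3 := ((hl z hz).neg.cexp).mul hhz
    have h4 : deriv (fun z => cexp (-l z) * h z) z = _ := h3.deriv
    rw [h4]
    have := hne z hz
    simp only [Pi.zero_apply]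
    field_simp
    ring
  have hexp : ∀ z ∈ ball (0 : ℂ) 1, cexp (l z) = h z := by
    intro z hz
    have hconst := isOpen_ball.is_const_of_deriv_eq_zero (convex_ball (0 : ℂ) 1).isPreconnected hu
      hderiv hz h00
    simp only [hl0] at hconst
    rw [Complex.exp_neg (Complex.log (h 0)), Complex.exp_log (hne 0 h00),
      inv_mul_cancel₀ (hne 0 h00), Complex.exp_neg] at hconst
    field_simp at hconst
    exact hconst.symm
  refine ⟨fun z => cexp (l z / d), (hld.div_const _).cexp, ?_⟩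
  intro z hz
  have hdC : (d : ℂ) ≠ 0 := by exact_mod_cast hd
  rw [← Complex.exp_nat_mul, ← hexp z hz]
  congr 1
  field_simp

/-- A nontrivial root of unity. -/
noncomputable def om (d : ℕ) : ℂ := Complex.exp (2 * Real.pi * I / d)

theorem om_pow {d : ℕ} (hd : 2 ≤ d) : om d ^ d = 1 :=
  (Complex.isPrimitiveRoot_exp d (by omega)).pow_eq_one

theorem om_ne {d : ℕ} (hd : 2 ≤ d) : om d ≠ 1 :=
  (Complex.isPrimitiveRoot_exp d (by omega)).ne_one (by omega)

theorem norm_om {d : ℕ} (hd : 2 ≤ d) : ‖om d‖ = 1 := by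
  have h1 := congrArg norm (om_pow hd)
  rw [norm_pow, norm_one] at h1
  exact (pow_eq_one_iff_of_nonneg (norm_nonneg _) (by omega)).mp h1

/-- The initial bound. -/
noncomputable def M0 (d : ℕ) : ℝ := (8 * 2 ^ d + 2) / ‖1 - om d‖

/-- The bound for the critical orbit at the times up to `J + 1`. -/
noncomputable def M1 (d k : ℕ) : ℝ := ((SM (M0 d) k + 1) ^ d + 3) ^ 2

theorem M0_nonneg (d : ℕ) : 0 ≤ M0 d := by unfold M0; positivity

theorem one_le_M1 (d k : ℕ) : 1 ≤ M1 d k := by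
  have h1 : 0 ≤ SM (M0 d) k := SM_nonneg (M0_nonneg d) k
  have h2 : 0 ≤ (SM (M0 d) k + 1) ^ d := by positivity
  unfold M1
  nlinarith

/-- Growth of large iterates of the critical point. -/
theorem grow {d : ℕ} (hd : 2 ≤ d) {M : ℝ} (hM : 3 ≤ M) {c : ℂ} (hc : ‖c‖ ≤ M) {n : ℕ}
    (hn : M < ‖P d n c‖) (j : ℕ) : ‖P d n c‖ ≤ ‖P d (n + j) c‖ := by
  induction j with
  | zero => exact le_rfl
  | succ j ih =>
    have h1 : M < ‖P d (n + j) c‖ := hn.trans_le ih
    have h2 := fc_growM hd hM hc h1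
    have h3 : fc d c (P d (n + j) c) = P d (n + (j + 1)) c := by
      rw [← add_assoc, P_succ]; rfl
    rw [h3] at h2
    linarith

/-- If the last iterate is bounded in terms of the parameter, the parameter is bounded. -/
theorem par_bd {d : ℕ} (hd : 2 ≤ d) {C : ℝ} (hC : 1 ≤ C) {c : ℂ} {n : ℕ} (hn : 1 ≤ n)
    (h : ‖P d n c‖ ^ d ≤ C * ‖c‖) : ‖c‖ ≤ C + 3 := by
  by_contra hcon
  push Not at hcon
  have hc3 : 3 < ‖c‖ := by linarith
  have hg : ∀ j, ‖c‖ ≤ ‖P d (1 + j) c‖ := by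
    intro j
    induction j with
    | zero => rw [add_zero, P_one hd]
    | succ j ih =>
      have h1 : ‖P d (1 + j) c‖ ^ 2 ≤ ‖P d (1 + j) c‖ ^ d :=
        pow_le_pow_right₀ (by linarith) hd
      have h2 : ‖P d (1 + j) c ^ d‖ - ‖c‖ ≤ ‖P d (1 + j) c ^ d + c‖ := by
        have := norm_sub_le (P d (1 + j) c ^ d + c) c
        rw [add_sub_cancel_right] at this
        linarith
      rw [norm_pow] at h2
      rw [← add_assoc, P_succ]
      nlinarith
  obtain ⟨j, rfl⟩ : ∃ j, n = 1 + j := ⟨n - 1, by omega⟩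
  have h1 := hg j
  have h2 : ‖c‖ ^ 2 ≤ ‖P d (1 + j) c‖ ^ d := by
    calc ‖c‖ ^ 2 ≤ ‖c‖ ^ d := pow_le_pow_right₀ (by linarith) hd
      _ ≤ _ := pow_le_pow_left₀ (norm_nonneg _) h1 d
  nlinarith

/-- Discs without zeros of a single iterate. -/
theorem disc_bd1 {d : ℕ} (hd : 2 ≤ d) {J : ℕ} {γ : ℂ → ℂ} (hγ : DifferentiableOn ℂ γ (ball 0 1))
    (hc : γ 0 ∈ multibrotSet d) (hno : ∀ t ∈ ball (0 : ℂ) 1, P d (J + 2) (γ t) ≠ 0) (k : ℕ) :
    ∀ t : ℂ, ‖t‖ ≤ 1 - (3 / 4 : ℝ) ^ k → BdJ d (M1 d k) (J + 1) (γ t) := by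
  have hP0 : ∀ n, P d n (0 : ℂ) = 0 := by
    intro n
    induction n with
    | zero => exact P_zero d 0
    | succ n ih => rw [P_succ, ih, zero_pow (by omega), zero_add]
  have hγ0 : ∀ t ∈ ball (0 : ℂ) 1, γ t ≠ 0 := by
    intro t ht h
    apply hno t ht
    rw [h, hP0]
  have h00 : (0 : ℂ) ∈ ball (0 : ℂ) 1 := mem_ball_self one_pos
  obtain ⟨r, hrd, hr⟩ := exists_root (d := d) (by omega) hγ.neg
    (fun z hz => by simpa using hγ0 z hz)
  have hr0 : ∀ t ∈ ball (0 : ℂ) 1, r t ≠ 0 := by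
    intro t ht h
    have h1 := hr t ht
    rw [h, zero_pow (by omega)] at h1
    exact hγ0 t ht (by simpa using h1.symm)
  set ω : ℂ := om d with hω
  have hω1 : (1 : ℂ) - ω ≠ 0 := sub_ne_zero.mpr (om_ne hd).symm
  have hωn : 0 < ‖1 - ω‖ := norm_pos_iff.mpr hω1
  have hωle : ‖1 - ω‖ ≤ 2 := by
    have := norm_sub_le 1 ω
    rw [norm_one, hω, norm_om hd] at this
    linarith
  have hωle' : ‖1 + ω‖ ≤ 2 := by
    have := norm_add_le 1 ω
    rw [norm_one, hω, norm_om hd] at this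
    linarith
  set F : ℂ → ℂ := fun t => P d (J + 1) (γ t) / r t with hF
  have hFd : DifferentiableOn ℂ F (ball 0 1) :=
    ((differentiable_P d (J + 1)).comp_differentiableOn hγ).div hrd hr0
  have hFpow : ∀ t ∈ ball (0 : ℂ) 1, F t ^ d * (-(γ t)) = P d (J + 1) (γ t) ^ d := by
    intro t ht
    have h1 := hr t ht
    simp only [Pi.neg_apply] at h1
    rw [hF]
    simp only
    rw [div_pow, h1, div_mul_cancel₀ _ (neg_ne_zero.mpr (hγ0 t ht))]
  have hFne : ∀ t ∈ ball (0 : ℂ) 1, F t ^ d ≠ 1 := by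
    intro t ht h
    have h1 := hFpow t ht
    rw [h, one_mul] at h1
    apply hno t ht
    rw [P_succ, ← h1]
    ring
  have hFn : ∀ t ∈ ball (0 : ℂ) 1, ‖F t‖ ^ d * ‖γ t‖ = ‖P d (J + 1) (γ t)‖ ^ d := by
    intro t ht
    have h1 := congrArg norm (hFpow t ht)
    rwa [norm_mul, norm_pow, norm_neg, norm_pow] at h1
  set g : ℂ → ℂ := fun t => (2 * F t - (1 + ω)) / (1 - ω) with hg
  have hgd : DifferentiableOn ℂ g (ball 0 1) := ((hFd.const_mul 2).sub_const _).div_const _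
  have hg1 : ∀ t ∈ ball (0 : ℂ) 1, g t ≠ 1 := by
    intro t ht h
    simp only [hg] at h
    rw [div_eq_one_iff_eq hω1] at h
    have h1 : F t = 1 := by linear_combination h / 2
    exact hFne t ht (by rw [h1, one_pow])
  have hg2 : ∀ t ∈ ball (0 : ℂ) 1, g t ≠ -1 := by
    intro t ht h
    simp only [hg] at h
    rw [div_eq_iff hω1] at h
    have h1 : F t = ω := by linear_combination h / 2
    exact hFne t ht (by rw [h1, hω, om_pow hd])
  have h2d : (1 : ℝ) ≤ 2 ^ d := one_le_pow₀ (by norm_num)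
  have hF0 : ‖F 0‖ ≤ 4 * 2 ^ d := by
    by_contra hcon
    push Not at hcon
    have hcp : 0 < ‖γ 0‖ := norm_pos_iff.mpr (hγ0 0 h00)
    have h1 := ratio hd hc (J + 1)
    rw [← hFn 0 h00] at h1
    have h2 : ‖F 0‖ ^ d ≤ 4 * 2 ^ d := le_of_mul_le_mul_right h1 hcp
    have h3 : ‖F 0‖ ≤ ‖F 0‖ ^ d := le_self_pow₀ (by linarith) (by omega)
    linarith
  have hg0 : ‖g 0‖ ≤ M0 d := by
    simp only [hg]
    rw [norm_div, M0]
    apply div_le_div_of_nonneg_right _ hωn.le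
    have h1 := norm_sub_le (2 * F 0) (1 + ω)
    rw [norm_mul] at h1
    have h2 : ‖(2 : ℂ)‖ = 2 := by simp
    rw [h2] at h1
    linarith
  set S : ℝ := SM (M0 d) k with hS
  have hS0 : 0 ≤ S := SM_nonneg (M0_nonneg d) k
  intro t ht
  have htb : t ∈ ball (0 : ℂ) 1 := by
    rw [mem_ball_zero_iff]
    have : (0 : ℝ) < (3 / 4 : ℝ) ^ k := by positivity
    linarith
  have hgt := chain hgd hg1 hg2 hg0 k t ht
  have hFt : ‖F t‖ ≤ S + 1 := by
    have h1 : 2 * F t = g t * (1 - ω) + (1 + ω) := by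
      simp only [hg]
      rw [div_mul_cancel₀ _ hω1]
      ring
    have h2 : ‖2 * F t‖ ≤ S * 2 + 2 := by
      rw [h1]
      refine (norm_add_le _ _).trans ?_
      rw [norm_mul]
      have h3 : ‖g t‖ * ‖1 - ω‖ ≤ S * 2 :=
        mul_le_mul hgt hωle (norm_nonneg _) hS0
      linarith
    rw [norm_mul] at h2
    have h3 : ‖(2 : ℂ)‖ = 2 := by simp
    rw [h3] at h2
    linarith
  set C : ℝ := (S + 1) ^ d with hC
  have hC1 : 1 ≤ C := one_le_pow₀ (by linarith)
  have hkey : ‖P d (J + 1) (γ t)‖ ^ d ≤ C * ‖γ t‖ := by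
    rw [← hFn t htb]
    exact mul_le_mul_of_nonneg_right (pow_le_pow_left₀ (norm_nonneg _) hFt d) (norm_nonneg _)
  have hcb : ‖γ t‖ ≤ C + 3 := par_bd hd hC1 (by omega) hkey
  have hlast : ‖P d (J + 1) (γ t)‖ ≤ (C + 3) ^ 2 := by
    by_contra hcon
    push Not at hcon
    have h1 : ‖P d (J + 1) (γ t)‖ ≤ ‖P d (J + 1) (γ t)‖ ^ d :=
      le_self_pow₀ (by nlinarith) (by omega)
    nlinarith
  intro n hn1 hn2
  have hM1 : M1 d k = (C + 3) ^ 2 := by rw [M1, hC, hS]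
  rw [hM1]
  by_cases h3 : ‖P d n (γ t)‖ ≤ C + 3
  · nlinarith
  · push Not at h3
    obtain ⟨j, hj⟩ : ∃ j, J + 1 = n + j := ⟨J + 1 - n, by omega⟩
    have h4 := grow hd (by linarith) hcb h3 j
    rw [← hj] at h4
    exact h4.trans hlast

end Pool.Agent.Run7.h598.PP
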