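import Mathlib
import Pool.Agent.Run7.h598.PP.Bd

set_option autoImplicit false

open Complex Topology Filter Metric MeasureTheory Set N62a1eb23

namespace Pool.Agent.Run7.h598.PP

open Pool.Agent.H713R2 Pool.Agent.H712R2 Pool.Agent.H713R2.AR Pool.Agent.H548R3.MB

/-- The constant in the level. -/
noncomputable def KG (d : ℕ) (M : ℝ) : ℝ := d * (Real.log (M + 3) + Real.log 4)

/-- The speed of holomorphic discs with bounded finite critical orbits on `‖t‖ ≤ ρ`. -/
theorem disc_ineqG {d a b : ℕ} (hab : a + b + 2 = d) {J : ℕ} {γ : ℂ → ℂ}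
    (hγ : DifferentiableOn ℂ γ (ball 0 1))
    (hc : γ 0 ∈ multibrotSet d) {M ρ : ℝ} (hM1 : 1 ≤ M) (hρ0 : 0 ≤ ρ) (hρ1 : ρ < 1)
    (hbd : ∀ t : ℂ, ‖t‖ ≤ ρ → BdJ d M (J + 1) (γ t)) :
    ρ * ‖deriv γ 0‖ ≤ d / Real.pi *
      √((∫ z in GLev d (γ 0) (KG d M / (d : ℝ) ^ (J + 2)), ‖z‖ ^ (2 * a)) *
        ∫ z in GLev d (γ 0) (KG d M / (d : ℝ) ^ (J + 2)), ‖z‖ ^ (2 * b)) := by
  have hd : 2 ≤ d := by omega
  have hpi := Real.pi_pos
  have hdR : (2 : ℝ) ≤ d := by exact_mod_cast hd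
  set c : ℂ := γ 0 with hcdef
  have hcb := (mem_multibrot_iff hd c).mp hc
  have hc2 : ‖c‖ ≤ 2 := by have := hcb 1; rwa [P_one hd] at this
  have hmap : ∀ t ∈ ball (0 : ℂ) 1, ‖(ρ : ℂ) * t‖ ≤ ρ := by
    intro t ht
    rw [mem_ball_zero_iff] at ht
    rw [norm_mul, Complex.norm_real, Real.norm_eq_abs, abs_of_nonneg hρ0]
    nlinarith
  have hlev := level_ineqM hab (M := M) (M' := M + 3) (by linarith) (by linarith)
    (by linarith) (γ := fun t => γ (ρ * t)) ?_ J ?_
  rotate_left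
  · apply hγ.comp (by fun_prop)
    intro t ht
    rw [mem_ball_zero_iff]
    exact (hmap t ht).trans_lt hρ1
  · intro t ht
    exact hbd _ (hmap t ht)
  have hder : deriv (fun t => γ (ρ * t)) 0 = ρ * deriv γ 0 := by
    have h3 : HasDerivAt γ (deriv γ 0) ((ρ : ℂ) * 0) := by
      rw [mul_zero]
      exact (hγ.differentiableAt (ball_mem_nhds 0 one_pos)).hasDerivAt
    have h4 : HasDerivAt (fun t : ℂ => (ρ : ℂ) * t) ρ 0 := by
      simpa using (hasDerivAt_id (0 : ℂ)).const_mul (ρ : ℂ)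
    have h5 := h3.comp (0 : ℂ) h4
    rw [mul_comm]
    exact h5.deriv
  rw [hder, mul_zero, norm_mul, Complex.norm_real, Real.norm_eq_abs, abs_of_nonneg hρ0] at hlev
  rw [← hcdef] at hlev
  have hsub : EM d (M + 3) c (J + 1) ⊆ GLev d c (KG d M / (d : ℝ) ^ (J + 2)) := by
    intro z hz
    have hz' : ‖(fc d c)^[J + 1] z‖ ≤ M + 3 := hz
    have h2 := (abs_le.mp (green_near hd (A := 2) (by norm_num) hc2 z (J + 1))).2
    have h3 : gap d c z (J + 1) ≤ Real.log (M + 3) / (d : ℝ) ^ (J + 1) := by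
      unfold gap
      apply div_le_div_of_nonneg_right _ (by positivity)
      refine (Real.posLog_le_posLog (norm_nonneg _) hz').trans ?_
      rw [Real.posLog_eq_log (by rw [abs_of_nonneg (by linarith)]; linarith)]
    have h4 : KG d M / (d : ℝ) ^ (J + 2) =
        Real.log (M + 3) / (d : ℝ) ^ (J + 1) + Real.log 4 / (d : ℝ) ^ (J + 1) := by
      unfold KG
      rw [pow_succ (d : ℝ) (J + 1)]
      field_simp
    have h5 : (2 : ℝ) * 2 = 4 := by norm_num
    rw [h5] at h2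
    change green d c z ≤ _
    rw [h4]
    linarith
  have hmono : ∀ n : ℕ, (1 / Real.pi * ∫ z in EM d (M + 3) c (J + 1), ‖z‖ ^ (2 * n)) ≤
      1 / Real.pi * ∫ z in GLev d c (KG d M / (d : ℝ) ^ (J + 2)), ‖z‖ ^ (2 * n) := by
    intro n
    apply mul_le_mul_of_nonneg_left _ (by positivity)
    apply setIntegral_mono_set
    · exact ((continuous_norm.pow _).continuousOn).integrableOn_compact (isCompact_GLev hd _ _)
    · exact Filter.Eventually.of_forall fun z => by positivity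
    · exact hsub.eventuallyLE
  set T : ℝ := (∫ z in GLev d c (KG d M / (d : ℝ) ^ (J + 2)), ‖z‖ ^ (2 * a)) *
    ∫ z in GLev d c (KG d M / (d : ℝ) ^ (J + 2)), ‖z‖ ^ (2 * b) with hT
  have h3 : (ρ * ‖deriv γ 0‖ / d) ^ 2 ≤ (1 / Real.pi) ^ 2 * T := by
    refine hlev.trans ((mul_le_mul (hmono a) (hmono b) ?_ ?_).trans (le_of_eq ?_))
    · apply mul_nonneg (by positivity)
      apply integral_nonneg; intro z; positivity
    · apply mul_nonneg (by positivity)
      apply integral_nonneg; intro z; positivity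
    · rw [hT]; ring
  have h4 : (ρ * ‖deriv γ 0‖ / d * Real.pi) ^ 2 ≤ T := by
    rw [mul_pow]
    calc (ρ * ‖deriv γ 0‖ / d) ^ 2 * Real.pi ^ 2 ≤ ((1 / Real.pi) ^ 2 * T) * Real.pi ^ 2 :=
          mul_le_mul_of_nonneg_right h3 (by positivity)
      _ = T := by field_simp
  have h5 := Real.le_sqrt_of_sq_le h4
  calc ρ * ‖deriv γ 0‖ = d / Real.pi * (ρ * ‖deriv γ 0‖ / d * Real.pi) := by field_simp
    _ ≤ _ := mul_le_mul_of_nonneg_left h5 (by positivity)


/-- The constant in the level, for discs without zeros of a single iterate. -/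
noncomputable def KP (d k : ℕ) : ℝ := KG d (M1 d k)

theorem lt_KP {d : ℕ} (hd : 2 ≤ d) (k : ℕ) : (d : ℝ) < KP d k := by
  have h1 := one_le_M1 d k
  have hdR : (2 : ℝ) ≤ d := by exact_mod_cast hd
  have h2 : Real.log 4 ≤ Real.log (M1 d k + 3) := Real.log_le_log (by norm_num) (by linarith)
  have h3 : (1 : ℝ) < Real.log 4 := by
    have h5 : Real.log 4 = 2 * Real.log 2 := by
      rw [show (4 : ℝ) = 2 ^ 2 by norm_num, Real.log_pow]; norm_num
    rw [h5]
    linarith [Real.log_two_gt_d9]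
  unfold KP KG
  nlinarith

/-- The speed of holomorphic discs without zeros of a single iterate. -/
theorem disc_ineq1 {d a b : ℕ} (hab : a + b + 2 = d) {J : ℕ} {γ : ℂ → ℂ}
    (hγ : DifferentiableOn ℂ γ (ball 0 1))
    (hc : γ 0 ∈ multibrotSet d) (hno : ∀ t ∈ ball (0 : ℂ) 1, P d (J + 2) (γ t) ≠ 0) (k : ℕ) :
    (1 - (3 / 4 : ℝ) ^ k) * ‖deriv γ 0‖ ≤ d / Real.pi *
      √((∫ z in GLev d (γ 0) (KP d k / (d : ℝ) ^ (J + 2)), ‖z‖ ^ (2 * a)) *
        ∫ z in GLev d (γ 0) (KP d k / (d : ℝ) ^ (J + 2)), ‖z‖ ^ (2 * b)) := by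
  have hpos : (0 : ℝ) < (3 / 4 : ℝ) ^ k := by positivity
  have hle : (3 / 4 : ℝ) ^ k ≤ 1 := pow_le_one₀ (by norm_num) (by norm_num)
  exact disc_ineqG hab hγ hc (one_le_M1 d k) (by linarith) (by linarith)
    (disc_bd1 (by omega) hγ hc hno k)

theorem P_at_zero {d : ℕ} (hd : 2 ≤ d) (n : ℕ) : P d n (0 : ℂ) = 0 := by
  induction n with
  | zero => exact P_zero d 0
  | succ n ih => rw [P_succ, ih, zero_pow (by omega), zero_add]

/-- The nearest centre. -/
theorem nearest1 {d : ℕ} (hd : 2 ≤ d) {c : ℂ} (hc : c ∈ multibrotSet d) (J : ℕ) :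
    ∃ c' : ℂ, P d (J + 2) c' = 0 ∧ ∀ k a b : ℕ, a + b + 2 = d →
      (1 - (3 / 4 : ℝ) ^ k) * ‖c' - c‖ ≤ d / Real.pi *
        √((∫ z in GLev d c (KP d k / (d : ℝ) ^ (J + 2)), ‖z‖ ^ (2 * a)) *
          ∫ z in GLev d c (KP d k / (d : ℝ) ^ (J + 2)), ‖z‖ ^ (2 * b)) := by
  obtain ⟨c', hc', hdist⟩ := (isClosed_eq (differentiable_P d (J + 2)).continuous
    continuous_const : IsClosed {c : ℂ | P d (J + 2) c = 0}).exists_infDist_eq_dist
    ⟨0, P_at_zero hd (J + 2)⟩ c
  refine ⟨c', hc', ?_⟩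
  intro k a b hab
  set r : ℝ := dist c c' with hr
  have hrn : ‖c' - c‖ = r := by rw [hr, dist_comm, dist_eq_norm]
  rw [hrn]
  rcases (dist_nonneg (x := c) (y := c')).eq_or_lt with h0 | h0
  · rw [← hr] at h0
    rw [← h0, mul_zero]
    have hpi := Real.pi_pos
    positivity
  · rw [← hr] at h0
    have hder : deriv (fun t : ℂ => c + r * t) 0 = r := by
      have h4 : HasDerivAt (fun t : ℂ => c + (r : ℂ) * t) r 0 := by
        simpa using ((hasDerivAt_id (0 : ℂ)).const_mul (r : ℂ)).const_add c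
      exact h4.deriv
    have h1 := disc_ineq1 hab (J := J) (γ := fun t : ℂ => c + r * t) (by fun_prop) (by simpa using hc)
      ?_ k
    · rw [hder, mul_zero, add_zero, Complex.norm_real, Real.norm_eq_abs, abs_of_pos h0] at h1
      exact h1
    · intro t ht hcen
      rw [mem_ball_zero_iff] at ht
      have h2 : infDist c {c : ℂ | P d (J + 2) c = 0} ≤ dist c (c + r * t) :=
        infDist_le_dist_of_mem hcen
      rw [hdist, dist_eq_norm, show c - (c + r * t) = -(r * t) by ring, norm_neg, norm_mul,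
        Complex.norm_real, Real.norm_eq_abs, abs_of_pos h0] at h2
      nlinarith

/-- Exponential density of centres at the parameters with polynomial decay. -/
theorem expo1 {d : ℕ} (hd : 2 ≤ d) {α : ℝ} (hα : 0 < α) (C : ℝ) :
    ∃ K : ℝ, ∀ c ∈ multibrotSet d,
      (∀ s ∈ Ioc (0 : ℝ) 1, volume {z : ℂ | green d c z ≤ s} ≤ ENNReal.ofReal (C * s ^ α)) →
      ∀ N : ℕ, 1 ≤ N → ∃ c' : ℂ, P d N c' = 0 ∧ ‖c' - c‖ ≤ K * ((d : ℝ) ^ N) ^ (-α) := by
  have hdR : (2 : ℝ) ≤ d := by exact_mod_cast hd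
  have hpi := Real.pi_pos
  set K₀ : ℝ := KP d 1 with hK₀
  have hdK : (d : ℝ) < K₀ := lt_KP hd 1
  have hK₀0 : 0 < K₀ := by linarith
  set R : ℝ := 4 * Real.exp 1 with hR
  have hR0 : 0 < R := by positivity
  set K₁ : ℝ := 4 * (d / Real.pi * (R ^ (d - 2) * |C|)) with hK₁
  have hK₁0 : 0 ≤ K₁ := by positivity
  refine ⟨(2 + K₁) * K₀ ^ α, ?_⟩
  intro c hc hvol N hN
  have hcb := (mem_multibrot_iff hd c).mp hc
  have hc2 : ‖c‖ ≤ 2 := by have := hcb 1; rwa [P_one hd] at this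
  have hdN : (0 : ℝ) < (d : ℝ) ^ N := by positivity
  have hKα : 0 < K₀ ^ α := Real.rpow_pos_of_pos hK₀0 α
  have hdiv : K₀ ^ α * ((d : ℝ) ^ N) ^ (-α) = (K₀ / (d : ℝ) ^ N) ^ α := by
    rw [Real.div_rpow hK₀0.le hdN.le, Real.rpow_neg hdN.le]; rfl
  rw [mul_assoc, hdiv]
  by_cases hs : K₀ / (d : ℝ) ^ N ≤ 1
  · have hN2 : 2 ≤ N := by
      by_contra hcon
      have hN1 : N = 1 := by omega
      rw [hN1, pow_one, div_le_one (by linarith)] at hs
      linarith
    obtain ⟨J, rfl⟩ : ∃ J, N = J + 2 := ⟨N - 2, by omega⟩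
    set s : ℝ := K₀ / (d : ℝ) ^ (J + 2) with hsdef
    have hs0 : 0 < s := by positivity
    obtain ⟨c', hc', hb⟩ := nearest1 hd hc J
    refine ⟨c', hc', ?_⟩
    have h1 := hb 1 (d - 2) 0 (by omega)
    rw [← hK₀, ← hsdef] at h1
    have hv := hvol s ⟨hs0, hs⟩
    have hvt : (volume (GLev d c s)).toReal ≤ |C| * s ^ α := by
      have h2 : (volume (GLev d c s)).toReal ≤ (ENNReal.ofReal (C * s ^ α)).toReal :=
        ENNReal.toReal_mono ENNReal.ofReal_ne_top hv
      refine h2.trans ?_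
      have h3 : 0 ≤ s ^ α := Real.rpow_nonneg hs0.le _
      rw [ENNReal.toReal_ofReal']
      refine max_le (mul_le_mul_of_nonneg_right (le_abs_self C) h3) (by positivity)
    have hcomp := isCompact_GLev hd c s
    have hfin : volume (GLev d c s) ≠ ⊤ := hcomp.measure_lt_top.ne
    have h2 : ∫ z in GLev d c s, ‖z‖ ^ (2 * 0) = (volume (GLev d c s)).toReal := by
      simp [Measure.real]
    have h3 : ∫ z in GLev d c s, ‖z‖ ^ (2 * (d - 2)) ≤
        R ^ (2 * (d - 2)) * (volume (GLev d c s)).toReal := by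
      have h4 : ∫ z in GLev d c s, ‖z‖ ^ (2 * (d - 2)) ≤
          ∫ z in GLev d c s, (R ^ (2 * (d - 2)) : ℝ) := by
        apply setIntegral_mono_on
        · exact ((continuous_norm.pow _).continuousOn).integrableOn_compact hcomp
        · exact (continuous_const.continuousOn).integrableOn_compact hcomp
        · exact hcomp.isClosed.measurableSet
        · intro z hz
          apply pow_le_pow_left₀ (norm_nonneg _)
          have h5 := norm_iter_le hd (A := 2) (by norm_num) hc2 z 0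
          simp only [Function.iterate_zero, id_eq, pow_zero, one_mul] at h5
          refine h5.trans ?_
          have h6 : green d c z ≤ 1 := le_trans hz hs
          rw [hR]
          have := Real.exp_le_exp.mpr h6
          linarith
      refine h4.trans (le_of_eq ?_)
      rw [setIntegral_const, smul_eq_mul, mul_comm]
      rfl
    set V : ℝ := (volume (GLev d c s)).toReal with hV
    have hV0 : 0 ≤ V := ENNReal.toReal_nonneg
    have h4 : √((∫ z in GLev d c s, ‖z‖ ^ (2 * (d - 2))) * ∫ z in GLev d c s, ‖z‖ ^ (2 * 0)) ≤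
        R ^ (d - 2) * V := by
      apply Real.sqrt_le_iff.mpr
      refine ⟨by positivity, ?_⟩
      rw [h2]
      calc (∫ z in GLev d c s, ‖z‖ ^ (2 * (d - 2))) * V ≤ (R ^ (2 * (d - 2)) * V) * V :=
            mul_le_mul_of_nonneg_right h3 hV0
        _ = (R ^ (d - 2) * V) ^ 2 := by rw [mul_comm 2 (d - 2), pow_mul]; ring
    have h5 : (1 / 4 : ℝ) * ‖c' - c‖ ≤ d / Real.pi * (R ^ (d - 2) * V) := by
      have h6 : (1 - (3 / 4 : ℝ) ^ 1) = 1 / 4 := by norm_num
      rw [h6] at h1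
      exact h1.trans (mul_le_mul_of_nonneg_left h4 (by positivity))
    have hsα : 0 ≤ s ^ α := Real.rpow_nonneg hs0.le _
    have h7 : d / Real.pi * (R ^ (d - 2) * V) ≤ d / Real.pi * (R ^ (d - 2) * (|C| * s ^ α)) := by
      gcongr
    have h8 : ‖c' - c‖ ≤ K₁ * s ^ α := by
      have h9 : K₁ * s ^ α = 4 * (d / Real.pi * (R ^ (d - 2) * (|C| * s ^ α))) := by
        rw [hK₁]; ring
      rw [h9]
      linarith
    nlinarith
  · push Not at hs
    refine ⟨0, P_at_zero hd N, ?_⟩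
    rw [zero_sub, norm_neg]
    have h1 : (1 : ℝ) ≤ (K₀ / (d : ℝ) ^ N) ^ α := Real.one_le_rpow hs.le hα.le
    nlinarith

end Pool.Agent.Run7.h598.PP
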