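import Mathlib
import Pool.Agent.Run7.h598.PP.Ineq

set_option autoImplicit false

open Complex Topology Filter Metric MeasureTheory Set N62a1eb23

namespace Pool.Agent.Run7.h598.PP

open Pool.Agent.H713R2 Pool.Agent.H712R2 Pool.Agent.H713R2.AR Pool.Agent.H548R3.MB

/-- `P d n c = c * q d n (c)`. -/
noncomputable def qp (d : ℕ) : ℕ → Polynomial ℂ
  | 0 => 0
  | n + 1 => Polynomial.X ^ (d - 1) * qp d n ^ d + 1

theorem P_eq_qp {d : ℕ} (hd : 2 ≤ d) (n : ℕ) (c : ℂ) : P d n c = c * (qp d n).eval c := by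
  induction n with
  | zero => rw [P_zero, qp]; simp
  | succ n ih =>
    rw [P_succ, ih, qp]
    simp only [Polynomial.eval_add, Polynomial.eval_mul, Polynomial.eval_pow, Polynomial.eval_X,
      Polynomial.eval_one]
    obtain ⟨e, rfl⟩ : ∃ e, d = e + 1 := ⟨d - 1, by omega⟩
    rw [Nat.add_sub_cancel]
    ring

theorem qp_zero {d : ℕ} (hd : 2 ≤ d) (n : ℕ) : (qp d (n + 1)).eval 0 = 1 := by
  rw [qp]
  simp only [Polynomial.eval_add, Polynomial.eval_mul, Polynomial.eval_pow, Polynomial.eval_X,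
    Polynomial.eval_one]
  rw [zero_pow (by omega), zero_mul, zero_add]

theorem qp_monic {d : ℕ} (hd : 2 ≤ d) (n : ℕ) : (qp d (n + 1)).Monic ∧
    (1 ≤ n → 0 < (qp d (n + 1)).degree) := by
  induction n with
  | zero =>
    refine ⟨?_, by omega⟩
    rw [qp, qp, zero_pow (by omega), mul_zero, zero_add]
    exact Polynomial.monic_one
  | succ n ih =>
    have h1 : (Polynomial.X ^ (d - 1) * qp d (n + 1) ^ d : Polynomial ℂ).Monic :=
      (Polynomial.monic_X_pow _).mul (ih.1.pow d)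
    have h2 : (0 : WithBot ℕ) <
        (Polynomial.X ^ (d - 1) * qp d (n + 1) ^ d : Polynomial ℂ).degree := by
      rw [Polynomial.degree_mul, Polynomial.degree_X_pow, Polynomial.degree_pow,
        Polynomial.degree_eq_natDegree ih.1.ne_zero]
      have h3 : ((d - 1 : ℕ) : WithBot ℕ) + d • ((qp d (n + 1)).natDegree : WithBot ℕ) =
          ((d - 1 + d * (qp d (n + 1)).natDegree : ℕ) : WithBot ℕ) := by
        push_cast
        simp
      rw [h3]
      exact_mod_cast (by omega : 0 < d - 1 + d * (qp d (n + 1)).natDegree)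
    have h3 : (1 : Polynomial ℂ).degree <
        (Polynomial.X ^ (d - 1) * qp d (n + 1) ^ d : Polynomial ℂ).degree := by
      rw [Polynomial.degree_one]; exact h2
    have h4 : qp d (n + 1 + 1) = Polynomial.X ^ (d - 1) * qp d (n + 1) ^ d + 1 := rfl
    rw [h4]
    refine ⟨h1.add_of_left h3, fun _ => ?_⟩
    rw [Polynomial.degree_add_eq_left_of_degree_lt h3]
    exact h2

theorem exists_nonzero {d : ℕ} (hd : 2 ≤ d) (J : ℕ) :
    ∃ c : ℂ, c ≠ 0 ∧ P d (J + 2) c = 0 ∧ ‖c‖ ≤ 4 := by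
  obtain ⟨c, hc⟩ := IsAlgClosed.exists_root (qp d (J + 1 + 1)) ((qp_monic hd (J + 1)).2 (by omega)).ne'
  have hc' : (qp d (J + 1 + 1)).eval c = 0 := hc
  have hP : P d (J + 2) c = 0 := by rw [P_eq_qp hd, hc', mul_zero]
  refine ⟨c, ?_, hP, ?_⟩
  · rintro rfl
    rw [qp_zero hd] at hc'
    exact one_ne_zero hc'
  · have h1 := par_bd hd (C := 1) le_rfl (c := c) (n := J + 2) (by omega) (by
      rw [hP, norm_zero, zero_pow (by omega)]; positivity)
    linarith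

theorem green_zero {d : ℕ} (hd : 2 ≤ d) {c z : ℂ} (hc : ‖c‖ ≤ 1 / 4) (hz : ‖z‖ ≤ 1 / 2) :
    green d c z = 0 := by
  have h : ∀ n, ‖(fc d c)^[n] z‖ ≤ 1 / 2 := by
    intro n
    induction n with
    | zero => exact hz
    | succ n ih =>
      rw [Function.iterate_succ_apply']
      set w := (fc d c)^[n] z with hw
      have h1 : fc d c w = w ^ d + c := rfl
      rw [h1]
      have h2 := norm_add_le (w ^ d) c
      rw [norm_pow] at h2
      have h3 : ‖w‖ ^ d ≤ (1 / 2) ^ d := pow_le_pow_left₀ (norm_nonneg _) ih d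
      have h4 : ((1 : ℝ) / 2) ^ d ≤ (1 / 2) ^ 2 :=
        pow_le_pow_of_le_one (by norm_num) (by norm_num) hd
      have h5 : ((1 : ℝ) / 2) ^ 2 = 1 / 4 := by norm_num
      linarith
  have h2 : gap d c z = fun _ => 0 := by
    funext n
    unfold gap
    have h3 : Real.posLog ‖(fc d c)^[n] z‖ = 0 := by
      rw [Real.posLog_eq_zero_iff, abs_of_nonneg (norm_nonneg _)]
      linarith [h n]
    rw [h3, zero_div]
  rw [green_eq, h2]
  simp

theorem moment_lower {d : ℕ} (hd : 2 ≤ d) {c : ℂ} (hc : ‖c‖ ≤ 1 / 4) {s : ℝ} (hs : 0 ≤ s) (a : ℕ) :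
    (1 / 4 : ℝ) ^ (2 * a) * (Real.pi / 64) ≤ ∫ z in GLev d c s, ‖z‖ ^ (2 * a) := by
  have hB : ∀ z ∈ ball (3 / 8 : ℂ) (1 / 8), 1 / 4 ≤ ‖z‖ ∧ ‖z‖ ≤ 1 / 2 := by
    intro z hz
    rw [mem_ball, dist_eq_norm] at hz
    have h1 : ‖(3 / 8 : ℂ)‖ = 3 / 8 := by simp
    have h2 := norm_sub_norm_le (3 / 8 : ℂ) (3 / 8 - z)
    have h3 := norm_sub_norm_le z (z - 3 / 8)
    rw [sub_sub_cancel] at h2 h3
    rw [h1] at h2 h3
    rw [norm_sub_rev (3 / 8 : ℂ) z] at h2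
    constructor <;> linarith
  have hsub : ball (3 / 8 : ℂ) (1 / 8) ⊆ GLev d c s := by
    intro z hz
    change green d c z ≤ s
    rw [green_zero hd hc (hB z hz).2]
    exact hs
  have hcomp := isCompact_GLev hd c s
  have hint : IntegrableOn (fun z : ℂ => ‖z‖ ^ (2 * a)) (GLev d c s) :=
    ((continuous_norm.pow _).continuousOn).integrableOn_compact hcomp
  have h1 : ∫ z in ball (3 / 8 : ℂ) (1 / 8), ‖z‖ ^ (2 * a) ≤ ∫ z in GLev d c s, ‖z‖ ^ (2 * a) :=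
    setIntegral_mono_set hint (Filter.Eventually.of_forall fun z => by positivity)
      hsub.eventuallyLE
  refine le_trans ?_ h1
  have h2 : ∫ z in ball (3 / 8 : ℂ) (1 / 8), ((1 / 4 : ℝ) ^ (2 * a)) ≤
      ∫ z in ball (3 / 8 : ℂ) (1 / 8), ‖z‖ ^ (2 * a) := by
    apply setIntegral_mono_on
    · exact integrableOn_const (measure_ball_lt_top).ne
    · exact hint.mono_set hsub
    · exact measurableSet_ball
    · intro z hz
      exact pow_le_pow_left₀ (by norm_num) (hB z hz).1 _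
  refine le_trans (le_of_eq ?_) h2
  rw [setIntegral_const, smul_eq_mul, Measure.real, Complex.volume_ball]
  rw [ENNReal.toReal_mul, ENNReal.toReal_pow, ENNReal.toReal_ofReal (by norm_num)]
  simp only [ENNReal.coe_toReal, NNReal.coe_real_pi]
  ring

theorem B_lower {d : ℕ} {a b : ℕ} (hab : a + b + 2 = d) {c : ℂ} (hc : ‖c‖ ≤ 1 / 4) {s : ℝ}
    (hs : 0 ≤ s) : (1 / 4 : ℝ) ^ (d - 2) / 64 ≤ d / Real.pi *
      √((∫ z in GLev d c s, ‖z‖ ^ (2 * a)) * ∫ z in GLev d c s, ‖z‖ ^ (2 * b)) := by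
  have hd : 2 ≤ d := by omega
  have hdR : (2 : ℝ) ≤ d := by exact_mod_cast hd
  have hpi := Real.pi_pos
  have h1 : (1 / 4 : ℝ) ^ (d - 2) * (Real.pi / 64) ≤
      √((∫ z in GLev d c s, ‖z‖ ^ (2 * a)) * ∫ z in GLev d c s, ‖z‖ ^ (2 * b)) := by
    apply Real.le_sqrt_of_sq_le
    have h2 : ((1 / 4 : ℝ) ^ (d - 2) * (Real.pi / 64)) ^ 2 =
        ((1 / 4 : ℝ) ^ (2 * a) * (Real.pi / 64)) * ((1 / 4 : ℝ) ^ (2 * b) * (Real.pi / 64)) := by
      rw [show d - 2 = a + b by omega]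
      ring
    rw [h2]
    exact mul_le_mul (moment_lower hd hc hs a) (moment_lower hd hc hs b) (by positivity)
      ((by positivity : (0 : ℝ) ≤ (1 / 4 : ℝ) ^ (2 * a) * (Real.pi / 64)).trans
        (moment_lower hd hc hs a))
  have h3 : (1 / 4 : ℝ) ^ (d - 2) / 64 ≤ d / Real.pi * ((1 / 4 : ℝ) ^ (d - 2) * (Real.pi / 64)) := by
    have h4 : d / Real.pi * ((1 / 4 : ℝ) ^ (d - 2) * (Real.pi / 64)) =
        d * ((1 / 4 : ℝ) ^ (d - 2) / 64) := by field_simp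
    rw [h4]
    have h5 : (0 : ℝ) ≤ (1 / 4 : ℝ) ^ (d - 2) / 64 := by positivity
    nlinarith
  exact h3.trans (mul_le_mul_of_nonneg_left h1 (by positivity))

/-- The constant for the exact period. -/
noncomputable def CE (d : ℕ) : ℝ := 2 + 96 + 6 / ((1 / 4 : ℝ) ^ (d - 2) / 64)

/-- A superattracting parameter different from `0`. -/
theorem nearest_ne {d : ℕ} (hd : 2 ≤ d) {k : ℕ} (hk : 1 ≤ (1 + 1) * (1 - (3 / 4 : ℝ) ^ k))
    {c : ℂ} (hc : c ∈ multibrotSet d) (J : ℕ) :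
    ∃ c' : ℂ, c' ≠ 0 ∧ P d (J + 2) c' = 0 ∧ ‖c' - c‖ ≤ 6 ∧ ∀ a b : ℕ, a + b + 2 = d →
      ‖c' - c‖ ≤ CE d * (d / Real.pi *
        √((∫ z in GLev d c (KP d k / (d : ℝ) ^ (J + 2)), ‖z‖ ^ (2 * a)) *
          ∫ z in GLev d c (KP d k / (d : ℝ) ^ (J + 2)), ‖z‖ ^ (2 * b))) := by
  have hcb := (mem_multibrot_iff hd c).mp hc
  have hc2 : ‖c‖ ≤ 2 := by have := hcb 1; rwa [P_one hd] at this
  have hpi := Real.pi_pos
  obtain ⟨c₁, hc₁, hn⟩ := nearest1 hd hc J
  set s : ℝ := KP d k / (d : ℝ) ^ (J + 2) with hs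
  have hdR : (2 : ℝ) ≤ d := by exact_mod_cast hd
  have hs0 : 0 ≤ s := by
    have h1 := lt_KP hd k
    have h2 : 0 < KP d k := by linarith
    positivity
  have hδ : (0 : ℝ) < (1 / 4 : ℝ) ^ (d - 2) / 64 := by positivity
  have hCE : 98 ≤ CE d := by
    unfold CE
    have : 0 ≤ 6 / ((1 / 4 : ℝ) ^ (d - 2) / 64) := by positivity
    linarith
  have hB0 : ∀ a b : ℕ, 0 ≤ d / Real.pi *
      √((∫ z in GLev d c s, ‖z‖ ^ (2 * a)) * ∫ z in GLev d c s, ‖z‖ ^ (2 * b)) := by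
    intro a b; positivity
  have hn' : ∀ a b : ℕ, a + b + 2 = d → ‖c₁ - c‖ ≤ (1 + 1) * (d / Real.pi *
      √((∫ z in GLev d c s, ‖z‖ ^ (2 * a)) * ∫ z in GLev d c s, ‖z‖ ^ (2 * b))) :=
    fun a b hab => scale one_pos (norm_nonneg _) hk (hn k a b hab)
  have hc₁4 : ‖c₁‖ ≤ 4 := by
    have h1 := par_bd hd (C := 1) le_rfl (c := c₁) (n := J + 2) (by omega) (by
      rw [hc₁, norm_zero, zero_pow (by omega)]; positivity)
    linarith
  by_cases h0 : c₁ = 0
  · obtain ⟨c₂, hc₂0, hc₂, hc₂4⟩ := exists_nonzero hd J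
    have h6 : ‖c₂ - c‖ ≤ 6 := by
      have := norm_sub_le c₂ c
      linarith
    refine ⟨c₂, hc₂0, hc₂, h6, ?_⟩
    intro a b hab
    refine h6.trans ?_
    set Bv : ℝ := d / Real.pi *
      √((∫ z in GLev d c s, ‖z‖ ^ (2 * a)) * ∫ z in GLev d c s, ‖z‖ ^ (2 * b)) with hBv
    by_cases hc4 : ‖c‖ ≤ 1 / 4
    · have h7 : (1 / 4 : ℝ) ^ (d - 2) / 64 ≤ Bv := B_lower hab hc4 hs0
      have h8 : 6 / ((1 / 4 : ℝ) ^ (d - 2) / 64) * ((1 / 4 : ℝ) ^ (d - 2) / 64) ≤ CE d * Bv := by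
        apply mul_le_mul _ h7 hδ.le (by linarith)
        unfold CE
        linarith
      rwa [div_mul_cancel₀ _ hδ.ne'] at h8
    · push Not at hc4
      have h7 := hn' a b hab
      rw [h0, zero_sub, norm_neg, ← hBv] at h7
      nlinarith
  · refine ⟨c₁, h0, hc₁, ?_, ?_⟩
    · have := norm_sub_le c₁ c
      linarith
    · intro a b hab
      refine (hn' a b hab).trans ?_
      apply mul_le_mul_of_nonneg_right _ (hB0 a b)
      linarith

/-- The bound of `B` at the parameters with polynomial decay. -/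
theorem B_upper {d : ℕ} (hd : 2 ≤ d) {α C : ℝ} {c : ℂ} (hc2 : ‖c‖ ≤ 2) {s : ℝ} (hs0 : 0 < s)
    (hs : s ≤ 1) (hv : volume {z : ℂ | green d c z ≤ s} ≤ ENNReal.ofReal (C * s ^ α)) :
    d / Real.pi * √((∫ z in GLev d c s, ‖z‖ ^ (2 * (d - 2))) * ∫ z in GLev d c s, ‖z‖ ^ (2 * 0)) ≤
      d / Real.pi * ((4 * Real.exp 1) ^ (d - 2) * |C|) * s ^ α := by
  have hpi := Real.pi_pos
  set R : ℝ := 4 * Real.exp 1 with hR
  have hR0 : 0 < R := by positivity
  have hvt : (volume (GLev d c s)).toReal ≤ |C| * s ^ α := by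
    have h2 : (volume (GLev d c s)).toReal ≤ (ENNReal.ofReal (C * s ^ α)).toReal :=
      ENNReal.toReal_mono ENNReal.ofReal_ne_top hv
    refine h2.trans ?_
    have h3 : 0 ≤ s ^ α := Real.rpow_nonneg hs0.le _
    rw [ENNReal.toReal_ofReal']
    refine max_le (mul_le_mul_of_nonneg_right (le_abs_self C) h3) (by positivity)
  have hcomp := isCompact_GLev hd c s
  have h2 : ∫ z in GLev d c s, ‖z‖ ^ (2 * 0) = (volume (GLev d c s)).toReal := by
    simp [Measure.real]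
  have h3 : ∫ z in GLev d c s, ‖z‖ ^ (2 * (d - 2)) ≤
      R ^ (2 * (d - 2)) * (volume (GLev d c s)).toReal := by
    have h4 : ∫ z in GLev d c s, ‖z‖ ^ (2 * (d - 2)) ≤
        ∫ z in GLev d c s, (R ^ (2 * (d - 2)) : ℝ) := by
      apply setIntegral_mono_on
      · exact ((continuous_norm.pow _).continuousOn).integrableOn_compact hcomp
      · exact (continuous_const.continuousOn).integrableOn_compact hcomp
      · exact hcomp.isClosed.measurableSet
      · intro z hz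
        apply pow_le_pow_left₀ (norm_nonneg _)
        have h5 := norm_iter_le hd (A := 2) (by norm_num) hc2 z 0
        simp only [Function.iterate_zero, id_eq, pow_zero, one_mul] at h5
        refine h5.trans ?_
        have h6 : green d c z ≤ 1 := le_trans hz hs
        rw [hR]
        have := Real.exp_le_exp.mpr h6
        linarith
    refine h4.trans (le_of_eq ?_)
    rw [setIntegral_const, smul_eq_mul, mul_comm]
    rfl
  set V : ℝ := (volume (GLev d c s)).toReal with hV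
  have hV0 : 0 ≤ V := ENNReal.toReal_nonneg
  have h4 : √((∫ z in GLev d c s, ‖z‖ ^ (2 * (d - 2))) * ∫ z in GLev d c s, ‖z‖ ^ (2 * 0)) ≤
      R ^ (d - 2) * V := by
    apply Real.sqrt_le_iff.mpr
    refine ⟨by positivity, ?_⟩
    rw [h2]
    calc (∫ z in GLev d c s, ‖z‖ ^ (2 * (d - 2))) * V ≤ (R ^ (2 * (d - 2)) * V) * V :=
          mul_le_mul_of_nonneg_right h3 hV0
      _ = (R ^ (d - 2) * V) ^ 2 := by rw [mul_comm 2 (d - 2), pow_mul]; ring
  calc d / Real.pi * √((∫ z in GLev d c s, ‖z‖ ^ (2 * (d - 2))) *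
        ∫ z in GLev d c s, ‖z‖ ^ (2 * 0)) ≤ d / Real.pi * (R ^ (d - 2) * V) :=
        mul_le_mul_of_nonneg_left h4 (by positivity)
    _ ≤ d / Real.pi * (R ^ (d - 2) * (|C| * s ^ α)) := by gcongr
    _ = _ := by ring

/-- Exponential density of superattracting parameters different from `0`. -/
theorem expo_ne {d : ℕ} (hd : 2 ≤ d) {α : ℝ} (hα : 0 < α) (C : ℝ) :
    ∃ K : ℝ, ∀ c ∈ multibrotSet d,
      (∀ s ∈ Ioc (0 : ℝ) 1, volume {z : ℂ | green d c z ≤ s} ≤ ENNReal.ofReal (C * s ^ α)) →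
      ∀ N : ℕ, 2 ≤ N → ∃ c' : ℂ, c' ≠ 0 ∧ P d N c' = 0 ∧
        ‖c' - c‖ ≤ K * ((d : ℝ) ^ N) ^ (-α) := by
  have hdR : (2 : ℝ) ≤ d := by exact_mod_cast hd
  have hpi := Real.pi_pos
  obtain ⟨k, hk⟩ := exists_k one_pos
  set K₀ : ℝ := KP d k with hK₀
  have hdK : (d : ℝ) < K₀ := lt_KP hd k
  have hK₀0 : 0 < K₀ := by linarith
  have hCE : 0 ≤ CE d := by
    unfold CE
    positivity
  set K₁ : ℝ := CE d * (d / Real.pi * ((4 * Real.exp 1) ^ (d - 2) * |C|)) with hK₁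
  have hK₁0 : 0 ≤ K₁ := by positivity
  refine ⟨(6 + K₁) * K₀ ^ α, ?_⟩
  intro c hc hvol N hN
  have hcb := (mem_multibrot_iff hd c).mp hc
  have hc2 : ‖c‖ ≤ 2 := by have := hcb 1; rwa [P_one hd] at this
  have hdN : (0 : ℝ) < (d : ℝ) ^ N := by positivity
  have hdiv : K₀ ^ α * ((d : ℝ) ^ N) ^ (-α) = (K₀ / (d : ℝ) ^ N) ^ α := by
    rw [Real.div_rpow hK₀0.le hdN.le, Real.rpow_neg hdN.le]; rfl
  rw [mul_assoc, hdiv]
  obtain ⟨J, rfl⟩ : ∃ J, N = J + 2 := ⟨N - 2, by omega⟩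
  obtain ⟨c', hc'0, hc', h6, hb⟩ := nearest_ne hd hk hc J
  refine ⟨c', hc'0, hc', ?_⟩
  set s : ℝ := K₀ / (d : ℝ) ^ (J + 2) with hsdef
  have hs0 : 0 < s := by positivity
  have hsα : 0 ≤ s ^ α := Real.rpow_nonneg hs0.le _
  by_cases hs : s ≤ 1
  · have h1 := hb (d - 2) 0 (by omega)
    have h2 := B_upper hd hc2 hs0 hs (hvol s ⟨hs0, hs⟩)
    have h3 := h1.trans (mul_le_mul_of_nonneg_left h2 hCE)
    have h4 : CE d * (d / Real.pi * ((4 * Real.exp 1) ^ (d - 2) * |C|) * s ^ α) = K₁ * s ^ α := by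
      rw [hK₁]; ring
    rw [h4] at h3
    nlinarith
  · push Not at hs
    have h1 : (1 : ℝ) ≤ s ^ α := Real.one_le_rpow hs.le hα.le
    nlinarith

end Pool.Agent.Run7.h598.PP
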