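import Mathlib
import Pool.Agent.Run7.h598.PP.Ex

set_option autoImplicit false

open Complex Topology Filter Metric MeasureTheory Set N62a1eb23

namespace Pool.Agent.Run7.h598.PP

open Pool.Agent.H713R2 Pool.Agent.H712R2 Pool.Agent.H713R2.AR Pool.Agent.H548R3.MB

/-! ### Roots of unity near a point -/

theorem norm_exp_sub_exp_le (θ φ : ℝ) : ‖cexp (I * θ) - cexp (I * φ)‖ ≤ |θ - φ| := by
  have h1 : cexp (I * θ) - cexp (I * φ) = cexp (I * φ) * (cexp (I * ((θ - φ : ℝ) : ℂ)) - 1) := by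
    rw [mul_sub, ← Complex.exp_add]
    congr 2
    · push_cast; ring
    · ring
  rw [h1, norm_mul]
  have h2 : ‖cexp (I * φ)‖ = 1 := by
    rw [mul_comm]; exact Complex.norm_exp_ofReal_mul_I φ
  rw [h2, one_mul]
  exact Real.norm_exp_I_mul_ofReal_sub_one_le

theorem exists_near_root {d : ℕ} (hd : 2 ≤ d) (w : ℂ) {A : ℝ} (hA : |‖w‖ - 1| ≤ A / d) :
    ∃ ζ : ℂ, ζ ^ d = 1 ∧ ‖ζ‖ = 1 ∧ ‖w - ζ‖ ≤ (A + Real.pi) / d := by
  have hpi := Real.pi_pos
  have hdR : (2 : ℝ) ≤ d := by exact_mod_cast hd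
  have hd0 : (0 : ℝ) < d := by linarith
  set θ : ℝ := Complex.arg w with hθ
  set j : ℤ := round (θ * d / (2 * Real.pi)) with hj
  set φ : ℝ := 2 * Real.pi * j / d with hφ
  have h1 : |θ * d / (2 * Real.pi) - j| ≤ 1 / 2 := abs_sub_round _
  have h2 : |θ - φ| ≤ Real.pi / d := by
    have h3 : θ - φ = (θ * d / (2 * Real.pi) - j) * (2 * Real.pi / d) := by
      rw [hφ]; field_simp
    rw [h3, abs_mul, abs_of_pos (by positivity : (0 : ℝ) < 2 * Real.pi / d)]
    calc |θ * d / (2 * Real.pi) - j| * (2 * Real.pi / d) ≤ 1 / 2 * (2 * Real.pi / d) :=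
          mul_le_mul_of_nonneg_right h1 (by positivity)
      _ = Real.pi / d := by ring
  refine ⟨cexp (I * φ), ?_, ?_, ?_⟩
  · rw [← Complex.exp_nat_mul]
    have h3 : (d : ℂ) * (I * (φ : ℂ)) = (j : ℂ) * (2 * Real.pi * I) := by
      rw [hφ]
      push_cast
      have : (d : ℂ) ≠ 0 := by exact_mod_cast hd0.ne'
      field_simp
    rw [h3]
    exact Complex.exp_int_mul_two_pi_mul_I j
  · rw [mul_comm]; exact Complex.norm_exp_ofReal_mul_I φ
  · have h3 : w - cexp (I * φ) = (w - cexp (I * θ)) + (cexp (I * θ) - cexp (I * φ)) := by ring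
    have h4 : w - cexp (I * θ) = ((‖w‖ - 1 : ℝ) : ℂ) * cexp (I * θ) := by
      have h5 := Complex.norm_mul_exp_arg_mul_I w
      rw [← hθ, mul_comm (θ : ℂ) I] at h5
      push_cast
      rw [sub_mul, h5, one_mul]
    have h6 : ‖cexp (I * θ)‖ = 1 := by
      rw [mul_comm]; exact Complex.norm_exp_ofReal_mul_I θ
    have h7 : ‖w - cexp (I * θ)‖ = |‖w‖ - 1| := by
      rw [h4, norm_mul, h6, mul_one, Complex.norm_real, Real.norm_eq_abs]
    rw [h3]
    refine (norm_add_le _ _).trans ?_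
    rw [h7, add_div]
    exact add_le_add hA ((norm_exp_sub_exp_le θ φ).trans h2)

theorem om_bounds {d : ℕ} (hd : 2 ≤ d) : 4 / (d : ℝ) ≤ ‖1 - om d‖ ∧ ‖1 - om d‖ ≤ 2 * Real.pi / d := by
  have hpi := Real.pi_pos
  have hdR : (2 : ℝ) ≤ d := by exact_mod_cast hd
  have hd0 : (0 : ℝ) < d := by linarith
  have h1 : om d = cexp (I * ((2 * Real.pi / d : ℝ) : ℂ)) := by
    unfold om
    congr 1
    push_cast
    ring
  have h2 : ‖1 - om d‖ = ‖cexp (I * ((2 * Real.pi / d : ℝ) : ℂ)) - 1‖ := by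
    rw [norm_sub_rev, h1]
  rw [h2]
  constructor
  · rw [Complex.norm_exp_I_mul_ofReal_sub_one]
    have h3 : 2 * Real.pi / d / 2 = Real.pi / d := by ring
    rw [h3]
    have h4 : Real.pi / d ≤ Real.pi / 2 := by
      apply div_le_div_of_nonneg_left hpi.le (by norm_num) hdR
    have h5 := Real.mul_le_sin (x := Real.pi / d) (by positivity) h4
    have h6 : 2 / Real.pi * (Real.pi / d) = 2 / d := by field_simp
    rw [h6] at h5
    have h7 : (0 : ℝ) < 2 / d := by positivity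
    rw [Real.norm_eq_abs, abs_of_pos (by linarith)]
    have h8 : (4 : ℝ) / d = 2 * (2 / d) := by ring
    rw [h8]
    linarith
  · have h3 := Real.norm_exp_I_mul_ofReal_sub_one_le (x := 2 * Real.pi / d)
    rwa [Real.norm_eq_abs, abs_of_pos (by positivity)] at h3

/-! ### Schottky's theorem for functions that omit the `d`-th roots of unity -/

/-- The new constant. -/
noncomputable def phi (A : ℝ) : ℝ :=
  (Real.exp (Real.pi * Real.exp (Real.pi * ((A + Real.pi) / 2 + 1 + 386))) + 1) * Real.pi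

theorem le_phi {A : ℝ} (hA : 0 ≤ A) : A ≤ phi A := by
  have hpi := Real.pi_gt_three
  have h1 := self_le_exp ((A + Real.pi) / 2 + 1)
  unfold phi
  nlinarith

theorem step_lemma {d : ℕ} (hd : 2 ≤ d) {F : ℂ → ℂ} {z₁ : ℂ} {R A : ℝ} (hR : 0 < R)
    (hF : DifferentiableOn ℂ F (ball z₁ R)) (hne : ∀ z ∈ ball z₁ R, F z ^ d ≠ 1)
    (h1 : |‖F z₁‖ - 1| ≤ A / d) {z : ℂ} (hz : ‖z - z₁‖ < R / 2) :
    ‖F z‖ ≤ 1 + phi A / d := by
  have hpi := Real.pi_pos
  have hdR : (2 : ℝ) ≤ d := by exact_mod_cast hd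
  have hd0 : (0 : ℝ) < d := by linarith
  obtain ⟨ζ, hζd, hζ1, hζ⟩ := exists_near_root hd (F z₁) h1
  obtain ⟨ho1, ho2⟩ := om_bounds hd
  set ω : ℂ := om d with hω
  have h4d : (0 : ℝ) < 4 / d := by positivity
  set δ : ℂ := ζ * (1 - ω) with hδ
  have hδn : ‖δ‖ = ‖1 - ω‖ := by rw [hδ, norm_mul, hζ1, one_mul]
  have hδ0 : δ ≠ 0 := by
    rw [← norm_pos_iff, hδn]; linarith
  set g : ℂ → ℂ := fun w => (2 * F (z₁ + R * w) - (ζ + ζ * ω)) / δ with hg
  have hmap : ∀ w ∈ ball (0 : ℂ) 1, z₁ + R * w ∈ ball z₁ R := by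
    intro w hw
    rw [mem_ball_zero_iff] at hw
    rw [mem_ball, dist_eq_norm, add_sub_cancel_left, norm_mul, Complex.norm_real,
      Real.norm_eq_abs, abs_of_pos hR]
    nlinarith
  have hgd : DifferentiableOn ℂ g (ball 0 1) := by
    have h2 : DifferentiableOn ℂ (fun w : ℂ => F (z₁ + R * w)) (ball 0 1) :=
      hF.comp (by fun_prop) hmap
    exact ((h2.const_mul 2).sub_const _).div_const _
  have hg1 : ∀ w ∈ ball (0 : ℂ) 1, g w ≠ 1 := by
    intro w hw h
    simp only [hg] at h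
    rw [div_eq_one_iff_eq hδ0, hδ] at h
    have h2 : F (z₁ + R * w) = ζ := by linear_combination h / 2
    exact hne _ (hmap w hw) (by rw [h2, hζd])
  have hg2 : ∀ w ∈ ball (0 : ℂ) 1, g w ≠ -1 := by
    intro w hw h
    simp only [hg] at h
    rw [div_eq_iff hδ0, hδ] at h
    have h2 : F (z₁ + R * w) = ζ * ω := by linear_combination h / 2
    exact hne _ (hmap w hw) (by rw [h2, mul_pow, hζd, hω, om_pow hd, one_mul])
  have hg0 : ‖g 0‖ ≤ (A + Real.pi) / 2 + 1 := by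
    have h2 : g 0 = 2 * (F z₁ - ζ) / δ + 1 := by
      simp only [hg, mul_zero, add_zero]
      field_simp
      rw [hδ]
      ring
    rw [h2]
    refine (norm_add_le _ _).trans ?_
    rw [norm_one, norm_div, norm_mul, hδn]
    have h3 : ‖(2 : ℂ)‖ = 2 := by simp
    rw [h3]
    have h4 : 0 < ‖1 - ω‖ := by linarith
    have hA0 : 0 ≤ A + Real.pi := by
      have h5 : 0 ≤ (A + Real.pi) / d := (norm_nonneg _).trans hζ
      have h6 := mul_nonneg h5 hd0.le
      rwa [div_mul_cancel₀ _ hd0.ne'] at h6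
    have h7 : 2 * ‖F z₁ - ζ‖ / ‖1 - ω‖ ≤ (A + Real.pi) / 2 := by
      rw [div_le_iff₀ h4]
      calc 2 * ‖F z₁ - ζ‖ ≤ 2 * ((A + Real.pi) / d) := by linarith
        _ = (A + Real.pi) / 2 * (4 / d) := by ring
        _ ≤ _ := mul_le_mul_of_nonneg_left ho1 (by positivity)
    linarith
  have hRC : (R : ℂ) ≠ 0 := by exact_mod_cast hR.ne'
  have h5 := H113G.schottky_all g _ hgd hg1 hg2 hg0 ((z - z₁) / R) (by
    rw [mem_ball_zero_iff, norm_div, Complex.norm_real, Real.norm_eq_abs, abs_of_pos hR,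
      div_lt_iff₀ hR]
    linarith)
  set S : ℝ := Real.exp (Real.pi * Real.exp (Real.pi * ((A + Real.pi) / 2 + 1 + 386))) with hS
  have h6 : z₁ + R * ((z - z₁) / R) = z := by field_simp; ring
  simp only [hg, h6] at h5
  have h7 : F z = ζ + ((2 * F z - (ζ + ζ * ω)) / δ - 1) * δ / 2 := by
    field_simp
    rw [hδ]
    ring
  rw [h7]
  refine (norm_add_le _ _).trans ?_
  rw [hζ1]
  have h8 : ‖((2 * F z - (ζ + ζ * ω)) / δ - 1) * δ / 2‖ ≤ (S + 1) * (2 * Real.pi / d) / 2 := by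
    rw [norm_div, norm_mul, hδn]
    have h9 : ‖(2 : ℂ)‖ = 2 := by simp
    rw [h9]
    apply div_le_div_of_nonneg_right _ (by norm_num)
    apply mul_le_mul _ ho2 (norm_nonneg _)
    · have := Real.exp_pos (Real.pi * Real.exp (Real.pi * ((A + Real.pi) / 2 + 1 + 386)))
      linarith
    · refine (norm_sub_le _ _).trans ?_
      rw [norm_one]
      linarith
  have h10 : phi A / d = (S + 1) * (2 * Real.pi / d) / 2 := by
    unfold phi
    rw [← hS]
    ring
  rw [h10]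
  linarith

/-- The constants. -/
noncomputable def AA : ℕ → ℝ
  | 0 => 16
  | k + 1 => phi (AA k)

theorem AA_nonneg (k : ℕ) : 0 ≤ AA k := by
  induction k with
  | zero => norm_num [AA]
  | succ k ih => exact ih.trans (le_phi ih)

/-- Schottky's theorem for functions that omit the `d`-th roots of unity, uniformly in `d`. -/
theorem chainU {d : ℕ} (hd : 2 ≤ d) {F : ℂ → ℂ} (hF : DifferentiableOn ℂ F (ball 0 1))
    (hne : ∀ z ∈ ball (0 : ℂ) 1, F z ^ d ≠ 1) (h0 : ‖F 0‖ ≤ 1 + 16 / d) (k : ℕ) :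
    ∀ z : ℂ, ‖z‖ ≤ 1 - (3 / 4 : ℝ) ^ k → ‖F z‖ ≤ 1 + AA k / d := by
  have hdR : (2 : ℝ) ≤ d := by exact_mod_cast hd
  have hd0 : (0 : ℝ) < d := by linarith
  induction k with
  | zero =>
    intro z hz
    have : z = 0 := by
      rw [← norm_le_zero_iff]; simpa using hz
    rw [this]; exact h0
  | succ k ih =>
    intro z hz
    have hA := AA_nonneg k
    have hA' := AA_nonneg (k + 1)
    have hmono : 1 + AA k / d ≤ 1 + AA (k + 1) / d := by
      have := div_le_div_of_nonneg_right (le_phi hA) hd0.le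
      have h2 : AA (k + 1) = phi (AA k) := rfl
      rw [h2]; linarith
    have hpos : (0 : ℝ) < (3 / 4 : ℝ) ^ k := by positivity
    have hle : (3 / 4 : ℝ) ^ k ≤ 1 := pow_le_one₀ (by norm_num) (by norm_num)
    rw [pow_succ] at hz
    set h : ℝ := (3 / 4 : ℝ) ^ k with hh
    by_cases hz1 : ‖z‖ ≤ 1 - h
    · exact (ih z hz1).trans hmono
    · push Not at hz1
      by_cases hFz : ‖F z‖ ≤ 1
      · have : 0 ≤ AA (k + 1) / d := by positivity
        linarith
      push Not at hFz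
      have hzpos : 0 < ‖z‖ := by linarith
      have hq : 0 ≤ (1 - h) / ‖z‖ := div_nonneg (by linarith) hzpos.le
      have hq1 : (1 - h) / ‖z‖ ≤ 1 := by rw [div_le_one hzpos]; exact hz1.le
      set z0 : ℂ := (((1 - h) / ‖z‖ : ℝ) : ℂ) * z with hz0
      have hz0n : ‖z0‖ = 1 - h := by
        rw [hz0, norm_mul, Complex.norm_real, Real.norm_eq_abs, abs_of_nonneg hq,
          div_mul_cancel₀ _ hzpos.ne']
      have hsub : z - z0 = ((1 - (1 - h) / ‖z‖ : ℝ) : ℂ) * z := by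
        rw [hz0]; push_cast; ring
      have hdn : ‖z - z0‖ = ‖z‖ - (1 - h) := by
        rw [hsub, norm_mul, Complex.norm_real, Real.norm_eq_abs, abs_of_nonneg (by linarith),
          sub_mul, div_mul_cancel₀ _ hzpos.ne', one_mul]
      have hseg : ∀ s ∈ Icc (0 : ℝ) 1, ‖z0 + s * (z - z0)‖ ≤ 1 - 3 / 4 * h := by
        intro s hs
        refine (norm_add_le _ _).trans ?_
        rw [hz0n, norm_mul (s : ℂ), Complex.norm_real, Real.norm_eq_abs, abs_of_nonneg hs.1, hdn]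
        have := hs.2
        nlinarith [norm_nonneg (z - z0)]
      have hex : ∃ s ∈ Icc (0 : ℝ) 1, |‖F (z0 + s * (z - z0))‖ - 1| ≤ AA k / d := by
        by_cases h1 : 1 ≤ ‖F z0‖
        · refine ⟨0, ⟨le_rfl, zero_le_one⟩, ?_⟩
          have h2 := ih z0 hz0n.le
          simp only [Complex.ofReal_zero, zero_mul, add_zero]
          rw [abs_of_nonneg (by linarith)]
          linarith
        · push Not at h1
          have hcont : ContinuousOn (fun s : ℝ => ‖F (z0 + s * (z - z0))‖) (Icc 0 1) := by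
            apply ContinuousOn.norm
            refine hF.continuousOn.comp (by fun_prop) ?_
            intro s hs
            rw [mem_ball_zero_iff]
            have := hseg s hs
            nlinarith
          have h2 := intermediate_value_Icc zero_le_one hcont
          have h3 : (1 : ℝ) ∈ Icc (‖F (z0 + (0 : ℝ) * (z - z0))‖) (‖F (z0 + (1 : ℝ) * (z - z0))‖) := by
            simp only [Complex.ofReal_zero, zero_mul, add_zero, Complex.ofReal_one, one_mul]
            rw [show z0 + (z - z0) = z by ring]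
            exact ⟨h1.le, hFz.le⟩
          obtain ⟨s, hs, hs1⟩ := h2 h3
          refine ⟨s, hs, ?_⟩
          simp only at hs1
          rw [hs1, sub_self, abs_zero]
          positivity
      obtain ⟨s, hs, hs1⟩ := hex
      have hsn := hseg s hs
      have hsubb : ball (z0 + s * (z - z0)) (3 / 4 * h) ⊆ ball (0 : ℂ) 1 := by
        intro w hw
        rw [mem_ball, dist_eq_norm] at hw
        rw [mem_ball_zero_iff]
        have := norm_le_norm_add_norm_sub' w (z0 + s * (z - z0))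
        linarith
      have h5 := step_lemma hd (F := F) (z₁ := z0 + s * (z - z0)) (R := 3 / 4 * h) (A := AA k)
        (by positivity) (hF.mono hsubb) (fun w hw => hne w (hsubb hw)) hs1 (z := z) (by
          have h6 : z - (z0 + s * (z - z0)) = ((1 - s : ℝ) : ℂ) * (z - z0) := by
            push_cast; ring
          rw [h6, norm_mul, Complex.norm_real, Real.norm_eq_abs,
            abs_of_nonneg (by linarith [hs.2]), hdn]
          have h7 : (1 - s) * (‖z‖ - (1 - h)) ≤ 1 * (1 / 4 * h) := by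
            apply mul_le_mul
            · linarith [hs.1]
            · linarith
            · linarith
            · norm_num
          linarith)
      exact h5

/-! ### Critical orbits -/

theorem small_P {d : ℕ} (hd : 2 ≤ d) {c : ℂ} (h : ‖c‖ ≤ 1 / 4) (n : ℕ) :
    ‖P d n c‖ ≤ 2 * ‖c‖ := by
  have hc0 := norm_nonneg c
  induction n with
  | zero => rw [P_zero, norm_zero]; positivity
  | succ n ih =>
    rw [P_succ]
    have h1 := norm_add_le (P d n c ^ d) c
    rw [norm_pow] at h1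
    have h2 : ‖P d n c‖ ^ d ≤ (2 * ‖c‖) ^ d := pow_le_pow_left₀ (norm_nonneg _) ih d
    have h3 : (2 * ‖c‖) ^ d ≤ (2 * ‖c‖) ^ 2 :=
      pow_le_pow_of_le_one (by positivity) (by linarith) hd
    nlinarith

theorem pow_le_four {d : ℕ} (hd : 2 ≤ d) {c : ℂ} (hc : c ∈ multibrotSet d) (n : ℕ) :
    ‖P d n c‖ ^ d ≤ 4 := by
  have hcb := (mem_multibrot_iff hd c).mp hc
  have hc2 : ‖c‖ ≤ 2 := by have := hcb 1; rwa [P_one hd] at this
  have h1 : P d n c ^ d = P d (n + 1) c - c := by rw [P_succ]; ring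
  rw [← norm_pow, h1]
  have := norm_sub_le (P d (n + 1) c) c
  linarith [hcb (n + 1)]

theorem ratioU {d : ℕ} (hd : 2 ≤ d) {c : ℂ} (hc : c ∈ multibrotSet d) (n : ℕ) :
    ‖P d n c‖ ^ d ≤ 16 * ‖c‖ := by
  by_cases h : 1 / 4 ≤ ‖c‖
  · have := pow_le_four hd hc n
    linarith
  · push Not at h
    have hc0 := norm_nonneg c
    have h2 : ‖P d n c‖ ^ d ≤ (2 * ‖c‖) ^ d :=
      pow_le_pow_left₀ (norm_nonneg _) (small_P hd h.le n) d
    have h3 : (2 * ‖c‖) ^ d ≤ (2 * ‖c‖) ^ 2 :=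
      pow_le_pow_of_le_one (by positivity) (by linarith) hd
    nlinarith

/-- The absolute constant that bounds `|P_n| ^ d`. -/
noncomputable def CU (k : ℕ) : ℝ :=
  2 * Real.exp (AA k) + Real.exp (AA k) * (Real.exp (AA k) + 3) + 9

theorem one_le_CU (k : ℕ) : 1 ≤ CU k := by
  have := Real.exp_pos (AA k)
  unfold CU
  nlinarith

/-- Discs without zeros of a single iterate: bounds that do not depend on the degree. -/
theorem disc_bdU {d : ℕ} (hd : 2 ≤ d) {J : ℕ} {γ : ℂ → ℂ} (hγ : DifferentiableOn ℂ γ (ball 0 1))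
    (hc : γ 0 ∈ multibrotSet d) (hno : ∀ t ∈ ball (0 : ℂ) 1, P d (J + 2) (γ t) ≠ 0) (k : ℕ) :
    ∀ t : ℂ, ‖t‖ ≤ 1 - (3 / 4 : ℝ) ^ k → ∀ n, 1 ≤ n → n ≤ J + 1 →
      ‖P d n (γ t)‖ ^ d ≤ CU k := by
  have hdR : (2 : ℝ) ≤ d := by exact_mod_cast hd
  have hd0 : (0 : ℝ) < d := by linarith
  have hγ0 : ∀ t ∈ ball (0 : ℂ) 1, γ t ≠ 0 := by
    intro t ht h
    apply hno t ht
    rw [h, P_at_zero hd]
  have h00 : (0 : ℂ) ∈ ball (0 : ℂ) 1 := mem_ball_self one_pos
  obtain ⟨r, hrd, hr⟩ := exists_root (d := d) (by omega) hγ.neg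
    (fun z hz => by simpa using hγ0 z hz)
  have hr0 : ∀ t ∈ ball (0 : ℂ) 1, r t ≠ 0 := by
    intro t ht h
    have h1 := hr t ht
    rw [h, zero_pow (by omega)] at h1
    exact hγ0 t ht (by simpa using h1.symm)
  set F : ℂ → ℂ := fun t => P d (J + 1) (γ t) / r t with hF
  have hFd : DifferentiableOn ℂ F (ball 0 1) :=
    ((differentiable_P d (J + 1)).comp_differentiableOn hγ).div hrd hr0
  have hFpow : ∀ t ∈ ball (0 : ℂ) 1, F t ^ d * (-(γ t)) = P d (J + 1) (γ t) ^ d := by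
    intro t ht
    have h1 := hr t ht
    simp only [Pi.neg_apply] at h1
    rw [hF]
    simp only
    rw [div_pow, h1, div_mul_cancel₀ _ (neg_ne_zero.mpr (hγ0 t ht))]
  have hFne : ∀ t ∈ ball (0 : ℂ) 1, F t ^ d ≠ 1 := by
    intro t ht h
    have h1 := hFpow t ht
    rw [h, one_mul] at h1
    apply hno t ht
    rw [P_succ, ← h1]
    ring
  have hFn : ∀ t ∈ ball (0 : ℂ) 1, ‖F t‖ ^ d * ‖γ t‖ = ‖P d (J + 1) (γ t)‖ ^ d := by
    intro t ht
    have h1 := congrArg norm (hFpow t ht)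
    rwa [norm_mul, norm_pow, norm_neg, norm_pow] at h1
  have hF0 : ‖F 0‖ ≤ 1 + 16 / d := by
    by_contra hcon
    push Not at hcon
    have hcp : 0 < ‖γ 0‖ := norm_pos_iff.mpr (hγ0 0 h00)
    have h1 := ratioU hd hc (J + 1)
    rw [← hFn 0 h00] at h1
    have h2 : ‖F 0‖ ^ d ≤ 16 := le_of_mul_le_mul_right h1 hcp
    have h16 : (0 : ℝ) < 16 / d := by positivity
    have h3 : (1 + 16 / (d : ℝ)) ^ d ≤ ‖F 0‖ ^ d := pow_le_pow_left₀ (by positivity) hcon.le d
    have h4 := one_add_mul_le_pow (a := 16 / (d : ℝ)) (by linarith) d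
    have h5 : (d : ℝ) * (16 / d) = 16 := by field_simp
    rw [h5] at h4
    linarith
  intro t ht
  have htb : t ∈ ball (0 : ℂ) 1 := by
    rw [mem_ball_zero_iff]
    have : (0 : ℝ) < (3 / 4 : ℝ) ^ k := by positivity
    linarith
  have hFt := chainU hd hFd hFne hF0 k t ht
  set C : ℝ := Real.exp (AA k) with hC
  have hC1 : 1 ≤ C := Real.one_le_exp (AA_nonneg k)
  have hFtd : ‖F t‖ ^ d ≤ C := by
    calc ‖F t‖ ^ d ≤ (1 + AA k / d) ^ d := pow_le_pow_left₀ (norm_nonneg _) hFt d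
      _ ≤ (Real.exp (AA k / d)) ^ d := by
        apply pow_le_pow_left₀
        · have := AA_nonneg k; positivity
        · have := Real.add_one_le_exp (AA k / d)
          linarith
      _ = C := by
        rw [← Real.exp_nat_mul, hC]
        congr 1
        field_simp
  have hkey : ‖P d (J + 1) (γ t)‖ ^ d ≤ C * ‖γ t‖ := by
    rw [← hFn t htb]
    exact mul_le_mul_of_nonneg_right hFtd (norm_nonneg _)
  have hcb : ‖γ t‖ ≤ C + 3 := par_bd hd hC1 (by omega) hkey
  have hlast : ‖P d (J + 1) (γ t)‖ ^ d ≤ C * (C + 3) := by nlinarith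
  have hCU : CU k = 2 * C + C * (C + 3) + 9 := by rw [CU, hC]
  intro n hn1 hn2
  by_cases hnJ : n = J + 1
  · rw [hnJ, hCU]; nlinarith
  · by_contra hcon
    push Not at hcon
    rw [hCU] at hcon
    have h1 : ‖P d n (γ t)‖ ^ d - ‖γ t‖ ≤ ‖P d (n + 1) (γ t)‖ := by
      rw [P_succ]
      have := norm_sub_le (P d n (γ t) ^ d + γ t) (γ t)
      rw [add_sub_cancel_right, norm_pow] at this
      linarith
    have hCC : 0 ≤ C * (C + 3) := by nlinarith
    set M : ℝ := C + C * (C + 3) + 5 with hM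
    have h2 : M < ‖P d (n + 1) (γ t)‖ := by
      rw [hM]; linarith
    obtain ⟨j, hj⟩ : ∃ j, J + 1 = (n + 1) + j := ⟨J - n, by omega⟩
    have h4 := grow hd (M := M) (by rw [hM]; linarith) (c := γ t) (by rw [hM]; linarith) h2 j
    rw [← hj] at h4
    have h5 : M < ‖P d (J + 1) (γ t)‖ := h2.trans_le h4
    have h6 : ‖P d (J + 1) (γ t)‖ ≤ ‖P d (J + 1) (γ t)‖ ^ d :=
      le_self_pow₀ (by rw [hM] at h5; linarith) (by omega)
    rw [hM] at h5
    linarith

theorem disc_BdJ {d : ℕ} (hd : 2 ≤ d) {J : ℕ} {γ : ℂ → ℂ} (hγ : DifferentiableOn ℂ γ (ball 0 1))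
    (hc : γ 0 ∈ multibrotSet d) (hno : ∀ t ∈ ball (0 : ℂ) 1, P d (J + 2) (γ t) ≠ 0) (k : ℕ) :
    ∀ t : ℂ, ‖t‖ ≤ 1 - (3 / 4 : ℝ) ^ k → BdJ d (CU k) (J + 1) (γ t) := by
  intro t ht n hn1 hn2
  have h1 := disc_bdU hd hγ hc hno k t ht n hn1 hn2
  by_cases h3 : ‖P d n (γ t)‖ ≤ 1
  · exact h3.trans (one_le_CU k)
  · push Not at h3
    exact (le_self_pow₀ h3.le (by omega)).trans h1

/-- The absolute constant in the level. -/
noncomputable def KU (k : ℕ) : ℝ := Real.log (CU k + 3) + Real.log 4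

theorem KU_pos (k : ℕ) : 0 < KU k := by
  have h1 := one_le_CU k
  have h2 : 0 < Real.log (CU k + 3) := Real.log_pos (by linarith)
  have h3 : 0 < Real.log 4 := Real.log_pos (by norm_num)
  unfold KU
  linarith

theorem level_eq {d : ℕ} (hd : 2 ≤ d) (k J : ℕ) :
    KG d (CU k) / (d : ℝ) ^ (J + 2) = KU k / (d : ℝ) ^ (J + 1) := by
  have hd0 : (d : ℝ) ≠ 0 := by
    have : 0 < d := by omega
    exact_mod_cast this.ne'
  unfold KG KU
  rw [pow_succ (d : ℝ) (J + 1)]
  field_simp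

theorem disc_ineqU {d a b : ℕ} (hab : a + b + 2 = d) {J : ℕ} {γ : ℂ → ℂ}
    (hγ : DifferentiableOn ℂ γ (ball 0 1))
    (hc : γ 0 ∈ multibrotSet d) (hno : ∀ t ∈ ball (0 : ℂ) 1, P d (J + 2) (γ t) ≠ 0) (k : ℕ) :
    (1 - (3 / 4 : ℝ) ^ k) * ‖deriv γ 0‖ ≤ d / Real.pi *
      √((∫ z in GLev d (γ 0) (KU k / (d : ℝ) ^ (J + 1)), ‖z‖ ^ (2 * a)) *
        ∫ z in GLev d (γ 0) (KU k / (d : ℝ) ^ (J + 1)), ‖z‖ ^ (2 * b)) := by
  have hpos : (0 : ℝ) < (3 / 4 : ℝ) ^ k := by positivity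
  have hle : (3 / 4 : ℝ) ^ k ≤ 1 := pow_le_one₀ (by norm_num) (by norm_num)
  have h1 := disc_ineqG hab hγ hc (one_le_CU k) (by linarith) (by linarith)
    (disc_BdJ (by omega) hγ hc hno k)
  rwa [level_eq (by omega)] at h1

end Pool.Agent.Run7.h598.PP
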