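import Mathlib
import Pool.Agent.Run7.h598.PP.Uni

set_option autoImplicit false

open Complex Topology Filter Metric MeasureTheory Set N62a1eb23

namespace Pool.Agent.Run7.h598.PP

open Pool.Agent.H713R2 Pool.Agent.H712R2 Pool.Agent.H713R2.AR Pool.Agent.H548R3.MB

/-! ### Schwarz–Pick (the first three lemmas are those of `Pool/Agent/H136R3/Conn.lean`) -/

theorem sq_norm_sub_eq (w p : ℂ) :
    ‖1 - (starRingEnd ℂ) p * w‖ ^ 2 - ‖w - p‖ ^ 2 = (1 - ‖w‖ ^ 2) * (1 - ‖p‖ ^ 2) := by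
  rw [← Complex.normSq_eq_norm_sq, ← Complex.normSq_eq_norm_sq, ← Complex.normSq_eq_norm_sq,
    ← Complex.normSq_eq_norm_sq]
  simp only [Complex.normSq_apply, Complex.sub_re, Complex.sub_im, Complex.one_re, Complex.one_im,
    Complex.mul_re, Complex.mul_im, Complex.conj_re, Complex.conj_im]
  ring

theorem schwarz_pick_aux {f : ℂ → ℂ} {c : ℂ} {R : ℝ} (hd : DifferentiableOn ℂ f (ball c R))
    {s : ℝ} (hs : s < 1) (hf : ∀ z ∈ ball c R, ‖f z‖ ≤ s) {z : ℂ}
    (hz : ‖z - c‖ ≤ R / 2) (hR : 0 < R) : ‖f z - f c‖ ≤ 1 - ‖f c‖ ^ 2 := by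
  have hcb : c ∈ ball c R := mem_ball_self hR
  have hzb : z ∈ ball c R := by rw [mem_ball, dist_eq_norm]; linarith
  have hc1 : ‖f c‖ < 1 := (hf c hcb).trans_lt hs
  have hz1 : ‖f z‖ < 1 := (hf z hzb).trans_lt hs
  have hcs : 0 < 1 - ‖f c‖ ^ 2 := by nlinarith [norm_nonneg (f c)]
  have hne : ∀ w ∈ ball c R, 1 - (starRingEnd ℂ) (f c) * f w ≠ 0 := by
    intro w hw h
    have h1 : ‖(starRingEnd ℂ) (f c) * f w‖ < 1 := by
      rw [norm_mul, RCLike.norm_conj]
      have h2 : ‖f w‖ < 1 := (hf w hw).trans_lt hs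
      have h3 := norm_nonneg (f c)
      have h4 := norm_nonneg (f w)
      nlinarith
    rw [← sub_eq_zero.1 h, norm_one] at h1
    exact lt_irrefl _ h1
  let g : ℂ → ℂ := fun w => (f w - f c) / (1 - (starRingEnd ℂ) (f c) * f w)
  have hg : DifferentiableOn ℂ g (ball c R) := by
    refine DifferentiableOn.div (hd.sub_const _) ?_ hne
    exact (differentiableOn_const _).sub (hd.const_mul _)
  have hgc : g c = 0 := by simp [g]
  have hmaps : MapsTo g (ball c R) (ball (g c) 1) := by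
    intro w hw
    rw [hgc, mem_ball, dist_zero_right]
    simp only [g]
    rw [norm_div, div_lt_one (norm_pos_iff.2 (hne w hw))]
    have h1 := sq_norm_sub_eq (f w) (f c)
    have h2 : ‖f w‖ < 1 := (hf w hw).trans_lt hs
    have h3 : 0 < (1 - ‖f w‖ ^ 2) * (1 - ‖f c‖ ^ 2) := by
      have : 0 < 1 - ‖f w‖ ^ 2 := by nlinarith [norm_nonneg (f w)]
      positivity
    have h4 : ‖f w - f c‖ ^ 2 < ‖1 - (starRingEnd ℂ) (f c) * f w‖ ^ 2 := by linarith
    exact lt_of_pow_lt_pow_left₀ 2 (norm_nonneg _) h4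
  have h5 := Complex.dist_le_div_mul_dist_of_mapsTo_ball hg (hmaps.mono_right ball_subset_closedBall) hzb
  rw [hgc, dist_zero_right, dist_eq_norm] at h5
  have h6 : ‖g z‖ ≤ 1 / 2 := by
    refine h5.trans ?_
    rw [div_mul_eq_mul_div, one_mul, div_le_div_iff₀ hR (by norm_num)]
    linarith
  simp only [g] at h6
  rw [norm_div, div_le_iff₀ (norm_pos_iff.2 (hne z hzb))] at h6
  have h7 : ‖1 - (starRingEnd ℂ) (f c) * f z‖ ≤ (1 - ‖f c‖ ^ 2) + ‖f c‖ * ‖f z - f c‖ := by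
    have h8 : 1 - (starRingEnd ℂ) (f c) * f z =
        ((1 - ‖f c‖ ^ 2 : ℝ) : ℂ) - (starRingEnd ℂ) (f c) * (f z - f c) := by
      have h9 : (starRingEnd ℂ) (f c) * f c = ((‖f c‖ ^ 2 : ℝ) : ℂ) := by
        rw [mul_comm, Complex.mul_conj, Complex.normSq_eq_norm_sq]
      rw [mul_sub, h9]
      push_cast
      ring
    rw [h8]
    refine (norm_sub_le _ _).trans ?_
    rw [Complex.norm_real, Real.norm_of_nonneg hcs.le, norm_mul, RCLike.norm_conj]
  have h10 : ‖f c‖ * ‖f z - f c‖ ≤ ‖f z - f c‖ := by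
    have := norm_nonneg (f z - f c)
    nlinarith
  linarith

theorem schwarz_pick {f : ℂ → ℂ} {c : ℂ} {R : ℝ} (hd : DifferentiableOn ℂ f (ball c R))
    (hf : ∀ z ∈ ball c R, ‖f z‖ ≤ 1) {z : ℂ} (hz : ‖z - c‖ ≤ R / 2) (hR : 0 < R) :
    ‖f z - f c‖ ≤ 2 * (1 - ‖f c‖) := by
  have hcb : c ∈ ball c R := mem_ball_self hR
  have h1 : ∀ s : ℝ, 0 < s → s < 1 → s * ‖f z - f c‖ ≤ 1 - (s * ‖f c‖) ^ 2 := by
    intro s hs0 hs1
    have h2 := schwarz_pick_aux (f := fun w => (s : ℂ) * f w) (c := c) (R := R)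
      (hd.const_mul _) hs1 (fun w hw => by
        rw [norm_mul, Complex.norm_real, Real.norm_of_nonneg hs0.le]
        have := hf w hw
        nlinarith) hz hR
    rw [← mul_sub, norm_mul, norm_mul, Complex.norm_real, Real.norm_of_nonneg hs0.le] at h2
    exact h2
  have h3 : ‖f z - f c‖ ≤ 1 - ‖f c‖ ^ 2 := by
    have h4 : Tendsto (fun s : ℝ => s * ‖f z - f c‖) (𝓝[<] 1) (𝓝 (1 * ‖f z - f c‖)) :=
      ((continuous_id.mul continuous_const).tendsto 1).mono_left nhdsWithin_le_nhds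
    have h5 : Tendsto (fun s : ℝ => 1 - (s * ‖f c‖) ^ 2) (𝓝[<] 1) (𝓝 (1 - (1 * ‖f c‖) ^ 2)) := by
      have : Continuous fun s : ℝ => 1 - (s * ‖f c‖) ^ 2 := by fun_prop
      exact (this.tendsto 1).mono_left nhdsWithin_le_nhds
    rw [one_mul] at h4 h5
    refine le_of_tendsto_of_tendsto h4 h5 ?_
    filter_upwards [Ioo_mem_nhdsLT (show (0 : ℝ) < 1 by norm_num)] with s hs
    exact h1 s hs.1 hs.2
  have h6 := hf c hcb
  nlinarith [norm_nonneg (f c)]

theorem deriv_pick {f : ℂ → ℂ} {c : ℂ} {R : ℝ} (hd : DifferentiableOn ℂ f (ball c R))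
    (hf : ∀ z ∈ ball c R, ‖f z‖ ≤ 1) (hR : 0 < R) : R * ‖deriv f c‖ ≤ 4 * (1 - ‖f c‖) := by
  have hsub : closedBall c (R / 2) ⊆ ball c R := closedBall_subset_ball (by linarith)
  have h1 : DiffContOnCl ℂ (fun z => f z - f c) (ball c (R / 2)) :=
    ((hd.mono hsub).sub_const _).diffContOnCl_ball subset_rfl
  have h2 := Complex.norm_deriv_le_of_forall_mem_sphere_norm_le (by linarith : 0 < R / 2) h1
    (C := 2 * (1 - ‖f c‖)) (fun z hz => by
      rw [mem_sphere, dist_eq_norm] at hz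
      exact schwarz_pick hd hf hz.le hR)
  rw [deriv_sub_const] at h2
  rw [le_div_iff₀ (by linarith)] at h2
  linarith

/-! ### Derivatives of the critical orbit with respect to the parameter -/

theorem deriv_P_succ (d n : ℕ) (c : ℂ) :
    deriv (P d (n + 1)) c = d * P d n c ^ (d - 1) * deriv (P d n) c + 1 := by
  have h1 : P d (n + 1) = fun c => P d n c ^ d + c := by
    funext c; exact P_succ d n c
  have h2 : HasDerivAt (P d n) (deriv (P d n) c) c := (differentiable_P d n c).hasDerivAt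
  rw [h1]
  exact ((h2.pow d).add (hasDerivAt_id c)).deriv

theorem deriv_P_zero (d : ℕ) (c : ℂ) : deriv (P d 0) c = 0 := by
  have h1 : P d 0 = fun _ => 0 := by
    funext c; exact P_zero d c
  rw [h1]; simp

theorem deriv_P_one {d : ℕ} (hd : 2 ≤ d) (c : ℂ) : deriv (P d 1) c = 1 := by
  rw [deriv_P_succ, deriv_P_zero, mul_zero, zero_add]

theorem deriv_small {d : ℕ} (hd : 2 ≤ d) {c : ℂ} (hc : ‖c‖ ≤ 1 / 8) (n : ℕ) :
    ‖deriv (P d n) c‖ ≤ 2 := by
  induction n with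
  | zero => rw [deriv_P_zero, norm_zero]; norm_num
  | succ n ih =>
    rw [deriv_P_succ]
    refine (norm_add_le _ _).trans ?_
    rw [norm_one, norm_mul, norm_mul, norm_pow, Complex.norm_natCast]
    have h1 : ‖P d n c‖ ≤ 1 / 4 := (small_P hd (by linarith) n).trans (by linarith)
    have h2 : ‖P d n c‖ ^ (d - 1) ≤ (1 / 4) ^ (d - 1) := pow_le_pow_left₀ (norm_nonneg _) h1 _
    have h3 : (d : ℝ) * (1 / 4) ^ (d - 1) ≤ 1 / 2 := by
      have h4 : (d : ℝ) ≤ 2 ^ (d - 1) := by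
        have h5 : d - 1 < 2 ^ (d - 1) := Nat.lt_two_pow_self
        have h6 : d ≤ 2 ^ (d - 1) := by omega
        exact_mod_cast h6
      calc (d : ℝ) * (1 / 4) ^ (d - 1) ≤ 2 ^ (d - 1) * (1 / 4) ^ (d - 1) :=
            mul_le_mul_of_nonneg_right h4 (by positivity)
        _ = (1 / 2) ^ (d - 1) := by rw [← mul_pow]; norm_num
        _ ≤ (1 / 2) ^ 1 := pow_le_pow_of_le_one (by norm_num) (by norm_num) (by omega)
        _ = 1 / 2 := pow_one _
    have h4 : (d : ℝ) * ‖P d n c‖ ^ (d - 1) ≤ 1 / 2 :=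
      (mul_le_mul_of_nonneg_left h2 (Nat.cast_nonneg d)).trans h3
    have h5 : (d : ℝ) * ‖P d n c‖ ^ (d - 1) * ‖deriv (P d n) c‖ ≤ 1 / 2 * 2 :=
      mul_le_mul h4 ih (norm_nonneg _) (by norm_num)
    linarith

/-- The basic estimate: a disc about `c` without zeros of `P_(J+2)`. -/
theorem der_bd {d : ℕ} (hd : 2 ≤ d) {J : ℕ} {c : ℂ} (hc : c ∈ multibrotSet d) {r : ℝ} (hr : 0 < r)
    (hno : ∀ c' ∈ ball c r, P d (J + 2) c' ≠ 0) {j : ℕ} (hj1 : 1 ≤ j) (hj : j ≤ J + 1) :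
    d * r * ‖deriv (P d j) c‖ ≤ 16 * CU 1 * (1 + d * |1 - ‖P d j c‖|) := by
  have hdR : (2 : ℝ) ≤ d := by exact_mod_cast hd
  have hd0 : (0 : ℝ) < d := by linarith
  set U : ℝ := CU 1 with hU
  have hU1 : 1 ≤ U := one_le_CU 1
  have hbd := disc_bdU hd (J := J) (γ := fun t : ℂ => c + r * t) (by fun_prop)
    (by simpa using hc) (fun t ht => by
      apply hno
      rw [mem_ball_zero_iff] at ht
      rw [mem_ball, dist_eq_norm, add_sub_cancel_left, norm_mul, Complex.norm_real,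
        Real.norm_eq_abs, abs_of_pos hr]
      nlinarith) 1
  have hb : ∀ w ∈ ball c (r / 4), ‖P d j w‖ ≤ 1 + U / d := by
    intro w hw
    rw [mem_ball, dist_eq_norm] at hw
    have h1 := hbd ((w - c) / r) (by
      rw [norm_div, Complex.norm_real, Real.norm_eq_abs, abs_of_pos hr, pow_one,
        div_le_iff₀ hr]
      linarith) j hj1 hj
    have hrC : (r : ℂ) ≠ 0 := by exact_mod_cast hr.ne'
    have h2 : c + r * ((w - c) / r) = w := by field_simp; ring
    rw [h2] at h1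
    by_contra hcon
    push Not at hcon
    have hUd : 0 < U / d := by positivity
    have h3 : (1 + U / (d : ℝ)) ^ d ≤ ‖P d j w‖ ^ d := pow_le_pow_left₀ (by positivity) hcon.le d
    have h4 := one_add_mul_le_pow (a := U / (d : ℝ)) (by linarith) d
    have h5 : (d : ℝ) * (U / d) = U := by field_simp
    rw [h5] at h4
    linarith
  have hUd0 : (0 : ℝ) < 1 + U / d := by positivity
  have hUdC : ((1 + U / d : ℝ) : ℂ) ≠ 0 := by exact_mod_cast hUd0.ne'
  have h1 := deriv_pick (f := fun w => P d j w / ((1 + U / d : ℝ) : ℂ)) (c := c) (R := r / 4)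
    (((differentiable_P d j).differentiableOn).div_const _) (fun w hw => by
      rw [norm_div, Complex.norm_real, Real.norm_eq_abs, abs_of_pos hUd0, div_le_one hUd0]
      exact hb w hw) (by linarith)
  rw [deriv_div_const, norm_div, norm_div, Complex.norm_real, Real.norm_eq_abs,
    abs_of_pos hUd0] at h1
  have h2 : r / 4 * ‖deriv (P d j) c‖ ≤ 4 * ((1 + U / d) - ‖P d j c‖) := by
    have h3 := mul_le_mul_of_nonneg_right h1 hUd0.le
    have h4 : r / 4 * (‖deriv (P d j) c‖ / (1 + U / d)) * (1 + U / d) =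
        r / 4 * ‖deriv (P d j) c‖ := by field_simp
    have h5 : 4 * (1 - ‖P d j c‖ / (1 + U / d)) * (1 + U / d) =
        4 * ((1 + U / d) - ‖P d j c‖) := by field_simp
    rwa [h4, h5] at h3
  have h3 : d * r * ‖deriv (P d j) c‖ ≤ 16 * (d * (1 - ‖P d j c‖) + U) := by
    calc d * r * ‖deriv (P d j) c‖ = 4 * d * (r / 4 * ‖deriv (P d j) c‖) := by ring
      _ ≤ 4 * d * (4 * ((1 + U / d) - ‖P d j c‖)) := mul_le_mul_of_nonneg_left h2 (by positivity)
      _ = 16 * (d * (1 - ‖P d j c‖) + U) := by field_simp; ring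
  have h4 : d * (1 - ‖P d j c‖) ≤ d * |1 - ‖P d j c‖| :=
    mul_le_mul_of_nonneg_left (le_abs_self _) hd0.le
  have h5 : 0 ≤ d * |1 - ‖P d j c‖| := by positivity
  nlinarith

/-- The absolute constant. -/
noncomputable def CZ : ℝ := 48 * (16 * CU 1)

/-- The nearest zero of `P_m` different from `0`, all derivatives at the same time. -/
theorem exists_zero {d : ℕ} (hd : 2 ≤ d) {J : ℕ} {c : ℂ} (hc : c ∈ multibrotSet d) :
    ∃ c' : ℂ, c' ≠ 0 ∧ P d (J + 2) c' = 0 ∧ ∀ j, 1 ≤ j → j ≤ J + 1 →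
      d * ‖c' - c‖ * ‖deriv (P d j) c‖ ≤ CZ * (1 + d * |1 - ‖P d j c‖|) := by
  have hdR : (2 : ℝ) ≤ d := by exact_mod_cast hd
  have hd0 : (0 : ℝ) < d := by linarith
  have hcb := (mem_multibrot_iff hd c).mp hc
  have hc2 : ‖c‖ ≤ 2 := by have := hcb 1; rwa [P_one hd] at this
  have hU1 : 1 ≤ CU 1 := one_le_CU 1
  have hCZ : 16 * CU 1 ≤ CZ := by unfold CZ; linarith
  obtain ⟨c₁, hc₁, hdist⟩ := (isClosed_eq (differentiable_P d (J + 2)).continuous
    continuous_const : IsClosed {c : ℂ | P d (J + 2) c = 0}).exists_infDist_eq_dist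
    ⟨0, P_at_zero hd (J + 2)⟩ c
  have hnear : ∀ j, 1 ≤ j → j ≤ J + 1 →
      d * ‖c₁ - c‖ * ‖deriv (P d j) c‖ ≤ 16 * CU 1 * (1 + d * |1 - ‖P d j c‖|) := by
    intro j hj1 hj
    rcases (norm_nonneg (c₁ - c)).eq_or_lt with h0 | h0
    · rw [← h0, mul_zero, zero_mul]; positivity
    · apply der_bd hd hc h0 _ hj1 hj
      intro c' hc' hP
      have h1 : infDist c {c : ℂ | P d (J + 2) c = 0} ≤ dist c c' := infDist_le_dist_of_mem hP
      rw [hdist] at h1
      rw [mem_ball, dist_comm] at hc'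
      rw [dist_comm, dist_eq_norm] at h1
      linarith
  by_cases h0 : c₁ = 0
  · obtain ⟨c₂, hc₂0, hc₂, hc₂4⟩ := exists_nonzero hd J
    have h6 : ‖c₂ - c‖ ≤ 6 := by
      have := norm_sub_le c₂ c
      linarith
    refine ⟨c₂, hc₂0, hc₂, ?_⟩
    intro j hj1 hj
    have hD := norm_nonneg (deriv (P d j) c)
    have hE : 0 ≤ d * |1 - ‖P d j c‖| := by positivity
    have hle : d * ‖c₂ - c‖ * ‖deriv (P d j) c‖ ≤ d * 6 * ‖deriv (P d j) c‖ := by
      apply mul_le_mul_of_nonneg_right _ hD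
      exact mul_le_mul_of_nonneg_left h6 hd0.le
    refine hle.trans ?_
    by_cases hc8 : ‖c‖ ≤ 1 / 8
    · have h7 := deriv_small hd hc8 j
      have h8 : ‖P d j c‖ ≤ 1 / 4 := (small_P hd (by linarith) j).trans (by linarith)
      have h9 : 3 / 4 ≤ |1 - ‖P d j c‖| := by
        rw [abs_of_nonneg (by linarith)]; linarith
      have h10 : (d : ℝ) * (3 / 4) ≤ d * |1 - ‖P d j c‖| := mul_le_mul_of_nonneg_left h9 hd0.le
      have h11 : d * 6 * ‖deriv (P d j) c‖ ≤ d * 6 * 2 :=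
        mul_le_mul_of_nonneg_left h7 (by positivity)
      nlinarith
    · push Not at hc8
      have h7 := hnear j hj1 hj
      rw [h0, zero_sub, norm_neg] at h7
      have h8 : d * (1 / 8) * ‖deriv (P d j) c‖ ≤ d * ‖c‖ * ‖deriv (P d j) c‖ := by
        apply mul_le_mul_of_nonneg_right _ hD
        exact mul_le_mul_of_nonneg_left hc8.le hd0.le
      have h9 : d * 6 * ‖deriv (P d j) c‖ = 48 * (d * (1 / 8) * ‖deriv (P d j) c‖) := by ring
      rw [h9]
      calc 48 * (d * (1 / 8) * ‖deriv (P d j) c‖) ≤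
            48 * (16 * CU 1 * (1 + d * |1 - ‖P d j c‖|)) := by linarith
        _ = CZ * (1 + d * |1 - ‖P d j c‖|) := by unfold CZ; ring
  · refine ⟨c₁, h0, hc₁, ?_⟩
    intro j hj1 hj
    refine (hnear j hj1 hj).trans ?_
    apply mul_le_mul_of_nonneg_right hCZ (by positivity)

/-! ### The scale `1 / n ^ (m - 1)` -/

theorem deriv_lower {d : ℕ} (hd : 2 ≤ d) {c : ℂ} {b : ℝ} (hb : 4 / (d : ℝ) ≤ b) {J : ℕ}
    (h : ∀ j, 1 ≤ j → j ≤ J + 1 → b ≤ ‖P d j c‖ ^ (d - 1)) (j : ℕ) (hj : j ≤ J) :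
    (d * b / 2) ^ j ≤ ‖deriv (P d (j + 1)) c‖ := by
  have hdR : (2 : ℝ) ≤ d := by exact_mod_cast hd
  have hd0 : (0 : ℝ) < d := by linarith
  have hdb : 4 ≤ d * b := by
    rw [div_le_iff₀ hd0] at hb
    linarith
  induction j with
  | zero => rw [zero_add, deriv_P_one hd, norm_one, pow_zero]
  | succ j ih =>
    have h1 := ih (by omega)
    have h2 := h (j + 1) (by omega) (by omega)
    have h3 : 1 ≤ (d * b / 2) ^ j := one_le_pow₀ (by linarith)
    rw [deriv_P_succ]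
    set D : ℝ := ‖deriv (P d (j + 1)) c‖ with hD
    have h4 : d * b * D ≤ ‖(d : ℂ) * P d (j + 1) c ^ (d - 1) * deriv (P d (j + 1)) c‖ := by
      rw [norm_mul, norm_mul, norm_pow, Complex.norm_natCast]
      apply mul_le_mul_of_nonneg_right _ (norm_nonneg _)
      exact mul_le_mul_of_nonneg_left h2 hd0.le
    have h5 := norm_sub_le ((d : ℂ) * P d (j + 1) c ^ (d - 1) * deriv (P d (j + 1)) c + 1) 1
    rw [add_sub_cancel_right, norm_one] at h5
    rw [pow_succ]
    have h6 : (d * b / 2) ^ j * (d * b / 2) ≤ D * (d * b / 2) :=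
      mul_le_mul_of_nonneg_right h1 (by linarith)
    nlinarith

theorem scale_bd {d : ℕ} (hd : 2 ≤ d) {J : ℕ} {c c' : ℂ} (hc : c ∈ multibrotSet d)
    (hj : d * ‖c' - c‖ * ‖deriv (P d (J + 1)) c‖ ≤ CZ * (1 + d * |1 - ‖P d (J + 1) c‖|))
    {b : ℝ} (hb : 4 / (d : ℝ) ≤ b) (hb1 : b ≤ 1)
    (h : ∀ j, 1 ≤ j → j ≤ J + 1 → b ≤ ‖P d j c‖ ^ (d - 1)) :
    (d : ℝ) ^ (J + 1) * ‖c' - c‖ ≤ 4 * CZ * (1 + Real.log (1 / b)) * (2 / b) ^ J := by
  have hdR : (2 : ℝ) ≤ d := by exact_mod_cast hd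
  have hd0 : (0 : ℝ) < d := by linarith
  have hb0 : 0 < b := lt_of_lt_of_le (by positivity) hb
  have hCZ0 : 0 < CZ := by
    have := one_le_CU 1
    unfold CZ; linarith
  have hlog : 0 ≤ Real.log (1 / b) := Real.log_nonneg (by rw [le_div_iff₀ hb0]; linarith)
  set p : ℝ := ‖P d (J + 1) c‖ with hp
  have hp1 : b ≤ p ^ (d - 1) := h (J + 1) (by omega) le_rfl
  have hp0 : 0 < p := by
    rcases (norm_nonneg (P d (J + 1) c)).eq_or_lt with h0 | h0
    · exfalso
      rw [hp, ← h0, zero_pow (by omega)] at hp1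
      linarith
    · exact h0
  have habs : d * |1 - p| ≤ 3 + 2 * Real.log (1 / b) := by
    rcases le_total p 1 with h1 | h1
    · rw [abs_of_nonneg (by linarith)]
      have h2 : Real.log b ≤ (d - 1 : ℕ) * Real.log p := by
        rw [← Real.log_pow]
        exact Real.log_le_log hb0 hp1
      have h3 : Real.log p ≤ p - 1 := Real.log_le_sub_one_of_pos hp0
      have h4 : ((d - 1 : ℕ) : ℝ) = d - 1 := by
        rw [Nat.cast_sub (by omega), Nat.cast_one]
      rw [h4] at h2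
      have h5 : Real.log (1 / b) = -Real.log b := by rw [one_div, Real.log_inv]
      rw [h5] at hlog ⊢
      nlinarith
    · rw [abs_of_nonpos (by linarith)]
      have h2 := pow_le_four hd hc (J + 1)
      rw [← hp] at h2
      have h3 := one_add_mul_le_pow (a := p - 1) (by linarith) d
      rw [add_sub_cancel] at h3
      nlinarith
  have hlow := deriv_lower hd hb h J le_rfl
  have h1 : d * ‖c' - c‖ * (d * b / 2) ^ J ≤ d * ‖c' - c‖ * ‖deriv (P d (J + 1)) c‖ :=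
    mul_le_mul_of_nonneg_left hlow (by positivity)
  have h2 : d * ‖c' - c‖ * (d * b / 2) ^ J ≤ 4 * CZ * (1 + Real.log (1 / b)) := by
    refine (h1.trans hj).trans ?_
    nlinarith
  have h3 : (d : ℝ) ^ (J + 1) * ‖c' - c‖ = d * ‖c' - c‖ * (d * b / 2) ^ J * (2 / b) ^ J := by
    rw [mul_assoc _ ((d * b / 2) ^ J), ← mul_pow]
    have h4 : (d : ℝ) * b / 2 * (2 / b) = d := by field_simp
    rw [h4]
    ring
  rw [h3]
  exact mul_le_mul_of_nonneg_right h2 (by positivity)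

/-! ### Level sets -/

theorem nearestU {d : ℕ} (hd : 2 ≤ d) {c : ℂ} (hc : c ∈ multibrotSet d) (J : ℕ) :
    ∃ c' : ℂ, P d (J + 2) c' = 0 ∧ ∀ k a b : ℕ, a + b + 2 = d →
      (1 - (3 / 4 : ℝ) ^ k) * ‖c' - c‖ ≤ d / Real.pi *
        √((∫ z in GLev d c (KU k / (d : ℝ) ^ (J + 1)), ‖z‖ ^ (2 * a)) *
          ∫ z in GLev d c (KU k / (d : ℝ) ^ (J + 1)), ‖z‖ ^ (2 * b)) := by
  obtain ⟨c', hc', hdist⟩ := (isClosed_eq (differentiable_P d (J + 2)).continuous
    continuous_const : IsClosed {c : ℂ | P d (J + 2) c = 0}).exists_infDist_eq_dist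
    ⟨0, P_at_zero hd (J + 2)⟩ c
  refine ⟨c', hc', ?_⟩
  intro k a b hab
  set r : ℝ := dist c c' with hr
  have hrn : ‖c' - c‖ = r := by rw [hr, dist_comm, dist_eq_norm]
  rw [hrn]
  rcases (dist_nonneg (x := c) (y := c')).eq_or_lt with h0 | h0
  · rw [← hr] at h0
    rw [← h0, mul_zero]
    have hpi := Real.pi_pos
    positivity
  · rw [← hr] at h0
    have hder : deriv (fun t : ℂ => c + r * t) 0 = r := by
      have h4 : HasDerivAt (fun t : ℂ => c + (r : ℂ) * t) r 0 := by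
        simpa using ((hasDerivAt_id (0 : ℂ)).const_mul (r : ℂ)).const_add c
      exact h4.deriv
    have h1 := disc_ineqU hab (J := J) (γ := fun t : ℂ => c + r * t) (by fun_prop) (by simpa using hc)
      ?_ k
    · rw [hder, mul_zero, add_zero, Complex.norm_real, Real.norm_eq_abs, abs_of_pos h0] at h1
      exact h1
    · intro t ht hcen
      rw [mem_ball_zero_iff] at ht
      have h2 : infDist c {c : ℂ | P d (J + 2) c = 0} ≤ dist c (c + r * t) :=
        infDist_le_dist_of_mem hcen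
      rw [hdist, dist_eq_norm, show c - (c + r * t) = -(r * t) by ring, norm_neg, norm_mul,
        Complex.norm_real, Real.norm_eq_abs, abs_of_pos h0] at h2
      nlinarith

end Pool.Agent.Run7.h598.PP
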