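import Mathlib
import Pool.Agent.Run7.h598.PP.Uni2

set_option autoImplicit false

open Complex Topology Filter Metric MeasureTheory Set N62a1eb23

namespace Pool.Agent.Run7.h598.PP

open Pool.Agent.H713R2 Pool.Agent.H712R2 Pool.Agent.H713R2.AR Pool.Agent.H548R3.MB

/-! ### The implicit function theorem in one complex variable -/

theorem exists_hol_branch {G : ℂ × ℂ → ℂ} (hG : ContDiff ℂ 1 G) {c₀ w₀ m : ℂ}
    (h0 : G (c₀, w₀) = 0) (hm : HasDerivAt (fun w => G (c₀, w)) m w₀) (hm0 : m ≠ 0) :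
    ∃ (ρ : ℝ) (w : ℂ → ℂ), 0 < ρ ∧ DifferentiableOn ℂ w (ball c₀ ρ) ∧ w c₀ = w₀ ∧
      ∀ c ∈ ball c₀ ρ, G (c, w c) = 0 := by
  set Ψ : ℂ × ℂ → ℂ × ℂ := fun x => (x.1, G x) with hΨ
  set L : ℂ × ℂ →L[ℂ] ℂ := fderiv ℂ G (c₀, w₀) with hL
  have hGd : HasFDerivAt G L (c₀, w₀) :=
    (hG.differentiable (by norm_num) (c₀, w₀)).hasFDerivAt
  set a : ℂ := L (1, 0) with ha
  have hLm : L (0, 1) = m := by
    have h1 : HasDerivAt (fun w : ℂ => (c₀, w)) ((0 : ℂ), (1 : ℂ)) w₀ :=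
      (hasDerivAt_const w₀ c₀).prodMk (hasDerivAt_id w₀)
    have h2 : HasDerivAt (fun w => G (c₀, w)) (L (0, 1)) w₀ :=
      HasFDerivAt.comp_hasDerivAt (f := fun w : ℂ => (c₀, w)) w₀ hGd h1
    exact h2.unique hm
  have hLuv : ∀ u v : ℂ, L (u, v) = a * u + m * v := by
    intro u v
    have h1 : ((u, v) : ℂ × ℂ) = u • ((1 : ℂ), (0 : ℂ)) + v • ((0 : ℂ), (1 : ℂ)) := by
      ext <;> simp
    rw [h1, map_add, map_smul, map_smul, hLm, ← ha, smul_eq_mul, smul_eq_mul]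
    ring
  set A : ℂ × ℂ →L[ℂ] ℂ × ℂ := (ContinuousLinearMap.fst ℂ ℂ ℂ).prod L with hA
  set Bi : ℂ × ℂ →L[ℂ] ℂ × ℂ := (ContinuousLinearMap.fst ℂ ℂ ℂ).prod
    (m⁻¹ • (ContinuousLinearMap.snd ℂ ℂ ℂ - a • ContinuousLinearMap.fst ℂ ℂ ℂ)) with hBi
  have hAB : ∀ x, A (Bi x) = x := by
    rintro ⟨u, v⟩
    simp only [hA, hBi, ContinuousLinearMap.prod_apply, ContinuousLinearMap.coe_fst',
      smul_apply, sub_apply,
      ContinuousLinearMap.coe_snd', smul_eq_mul, hLuv]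
    ext
    · rfl
    · simp only
      field_simp
      ring
  have hBA : ∀ x, Bi (A x) = x := by
    rintro ⟨u, v⟩
    simp only [hA, hBi, ContinuousLinearMap.prod_apply, ContinuousLinearMap.coe_fst',
      smul_apply, sub_apply,
      ContinuousLinearMap.coe_snd', smul_eq_mul, hLuv]
    ext
    · rfl
    · simp only
      field_simp
      ring
  set e : (ℂ × ℂ) ≃L[ℂ] (ℂ × ℂ) := ContinuousLinearEquiv.equivOfInverse A Bi hBA hAB with he
  have hΨc : ContDiff ℂ 1 Ψ := contDiff_fst.prodMk hG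
  have hΨd : HasFDerivAt Ψ (e : ℂ × ℂ →L[ℂ] ℂ × ℂ) (c₀, w₀) := hasFDerivAt_fst.prodMk hGd
  have hΨ0 : Ψ (c₀, w₀) = (c₀, 0) := by simp [hΨ, h0]
  have hca : ContDiffAt ℂ 1 Ψ (c₀, w₀) := hΨc.contDiffAt
  set H := hca.toOpenPartialHomeomorph Ψ hΨd one_ne_zero with hH
  have hHc : (H : ℂ × ℂ → ℂ × ℂ) = Ψ := rfl
  have hmemS : (c₀, w₀) ∈ H.source :=
    hca.mem_toOpenPartialHomeomorph_source hΨd one_ne_zero
  have hmemT : (c₀, (0 : ℂ)) ∈ H.target := by
    have := hca.image_mem_toOpenPartialHomeomorph_target hΨd one_ne_zero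
    rwa [hΨ0] at this
  have hsymm0 : H.symm (c₀, 0) = (c₀, w₀) := by
    rw [← hΨ0, ← hHc]
    exact H.left_inv hmemS
  have hcd : ContDiffAt ℂ 1 H.symm (c₀, 0) := by
    apply H.contDiffAt_symm (f₀' := e) hmemT
    · rw [hsymm0]; exact hΨd
    · rw [hsymm0]; exact hΨc.contDiffAt
  have hev : ∀ᶠ y in 𝓝 (c₀, (0 : ℂ)), DifferentiableAt ℂ H.symm y := by
    filter_upwards [hcd.eventually (by norm_num)] with y hy
    exact hy.differentiableAt (by norm_num)
  have hcont : Continuous (fun c : ℂ => (c, (0 : ℂ))) := by fun_prop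
  have hev2 : ∀ᶠ c in 𝓝 c₀, DifferentiableAt ℂ H.symm (c, 0) ∧ (c, (0 : ℂ)) ∈ H.target :=
    ((hcont.tendsto c₀).eventually hev).and
      ((hcont.tendsto c₀).eventually (H.open_target.mem_nhds hmemT))
  obtain ⟨ρ, hρ, hball⟩ := Metric.eventually_nhds_iff_ball.mp hev2
  refine ⟨ρ, fun c => (H.symm (c, 0)).2, hρ, ?_, ?_, ?_⟩
  · intro c hc
    have h1 := (hball c hc).1
    have h2 : DifferentiableAt ℂ (fun c : ℂ => (c, (0 : ℂ))) c := by fun_prop
    exact ((h1.comp c h2).snd).differentiableWithinAt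
  · simp only [hsymm0]
  · intro c hc
    have h1 := H.right_inv (hball c hc).2
    rw [hHc] at h1
    have h2 : (H.symm (c, 0)).1 = c := congrArg Prod.fst h1
    have h3 : G (H.symm (c, 0)) = 0 := congrArg Prod.snd h1
    have h4 : (c, (H.symm (c, 0)).2) = H.symm (c, 0) := by
      ext
      · exact h2.symm
      · rfl
    simp only
    rw [h4]
    exact h3

/-! ### Iterates as functions of the parameter and the point -/

/-- The iterate `f_c^p (w)`, as a function of `(c, w)`. -/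
def It (d p : ℕ) (x : ℂ × ℂ) : ℂ := (fc d x.1)^[p] x.2

theorem It_succ (d p : ℕ) (x : ℂ × ℂ) : It d (p + 1) x = It d p x ^ d + x.1 := by
  unfold It
  rw [Function.iterate_succ_apply']
  rfl

theorem contDiff_It (d p : ℕ) (n : WithTop ℕ∞) : ContDiff ℂ n (It d p) := by
  induction p with
  | zero => exact contDiff_snd
  | succ p ih =>
    have h1 : It d (p + 1) = fun x => It d p x ^ d + x.1 := by
      funext x; exact It_succ d p x
    rw [h1]
    exact (ih.pow d).add contDiff_fst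

theorem differentiable_iter (d p : ℕ) (c : ℂ) : Differentiable ℂ ((fc d c)^[p]) := by
  have h1 : (fc d c)^[p] = fun w => It d p (c, w) := rfl
  rw [h1]
  exact ((contDiff_It d p 1).comp (by fun_prop : ContDiff ℂ 1 (fun w : ℂ => (c, w)))).differentiable
    (by norm_num)

/-- The holomorphic continuation of a periodic point. -/
theorem exists_per_branch {d p : ℕ} {c₀ w₀ : ℂ} (hper : (fc d c₀)^[p] w₀ = w₀)
    (hmul : deriv ((fc d c₀)^[p]) w₀ ≠ 1) :
    ∃ (ρ : ℝ) (w : ℂ → ℂ), 0 < ρ ∧ DifferentiableOn ℂ w (ball c₀ ρ) ∧ w c₀ = w₀ ∧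
      ∀ c ∈ ball c₀ ρ, (fc d c)^[p] (w c) = w c := by
  have hG : ContDiff ℂ 1 (fun x : ℂ × ℂ => It d p x - x.2) :=
    (contDiff_It d p 1).sub contDiff_snd
  have h1 : HasDerivAt (fun w => (fun x : ℂ × ℂ => It d p x - x.2) (c₀, w))
      (deriv ((fc d c₀)^[p]) w₀ - 1) w₀ := by
    have h2 : HasDerivAt ((fc d c₀)^[p]) (deriv ((fc d c₀)^[p]) w₀) w₀ :=
      (differentiable_iter d p c₀ w₀).hasDerivAt
    exact h2.sub (hasDerivAt_id w₀)
  obtain ⟨ρ, w, hρ, hw, hw0, hwe⟩ := exists_hol_branch hG (c₀ := c₀) (w₀ := w₀)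
    (by simp only [It]; rw [hper, sub_self]) h1 (sub_ne_zero.mpr hmul)
  refine ⟨ρ, w, hρ, hw, hw0, ?_⟩
  intro c hc
  have := hwe c hc
  simp only [It] at this
  exact sub_eq_zero.mp this

/-- The derivative of the iterate depends continuously on the parameter and the point. -/
theorem continuous_deriv_iter (d p : ℕ) :
    Continuous (fun x : ℂ × ℂ => deriv ((fc d x.1)^[p]) x.2) := by
  have h1 : ∀ x : ℂ × ℂ, deriv ((fc d x.1)^[p]) x.2 = fderiv ℂ (It d p) x (0, 1) := by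
    rintro ⟨c, w⟩
    have h2 : HasFDerivAt (It d p) (fderiv ℂ (It d p) (c, w)) (c, w) :=
      ((contDiff_It d p 1).differentiable (by norm_num) (c, w)).hasFDerivAt
    have h3 : HasDerivAt (fun w : ℂ => (c, w)) ((0 : ℂ), (1 : ℂ)) w :=
      (hasDerivAt_const w c).prodMk (hasDerivAt_id w)
    have h4 : HasDerivAt (fun w => It d p (c, w)) (fderiv ℂ (It d p) (c, w) (0, 1)) w :=
      HasFDerivAt.comp_hasDerivAt (f := fun w : ℂ => (c, w)) w h2 h3
    exact h4.deriv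
  have h5 : (fun x : ℂ × ℂ => deriv ((fc d x.1)^[p]) x.2) =
      fun x => fderiv ℂ (It d p) x (0, 1) := by
    funext x; exact h1 x
  rw [h5]
  exact ((contDiff_It d p 1).continuous_fderiv (by norm_num)).clm_apply continuous_const

end Pool.Agent.Run7.h598.PP
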