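import Mathlib
import Pool.Agent.Run7.h598.PP.Ift

set_option autoImplicit false

open Complex Topology Filter Metric MeasureTheory Set N62a1eb23

namespace Pool.Agent.Run7.h598.PP

open Pool.Agent.H713R2 Pool.Agent.H712R2 Pool.Agent.H713R2.AR Pool.Agent.H548R3.MB

/-! ### Two moving targets -/

/-- The bound for two moving targets. -/
noncomputable def MT (U δ R : ℝ) (k : ℕ) : ℝ := (SM ((4 + 2 * U) / δ) k + 1) * U + R + 3

theorem disc_two {d : ℕ} (hd : 2 ≤ d) {J : ℕ} {γ : ℂ → ℂ} (hγ : DifferentiableOn ℂ γ (ball 0 1))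
    (hc : γ 0 ∈ multibrotSet d) {a b : ℂ → ℂ} (ha : DifferentiableOn ℂ a (ball 0 1))
    (hb : DifferentiableOn ℂ b (ball 0 1)) {U δ R : ℝ} (hδ : 0 < δ)
    (hU : ∀ t ∈ ball (0 : ℂ) 1, ‖a t‖ ≤ U ∧ ‖b t‖ ≤ U)
    (hab : ∀ t ∈ ball (0 : ℂ) 1, δ ≤ ‖a t - b t‖) (hR : ∀ t ∈ ball (0 : ℂ) 1, ‖γ t‖ ≤ R)
    (hno : ∀ t ∈ ball (0 : ℂ) 1, P d (J + 1) (γ t) ≠ a t ∧ P d (J + 1) (γ t) ≠ b t) (k : ℕ) :
    ∀ t : ℂ, ‖t‖ ≤ 1 - (3 / 4 : ℝ) ^ k → BdJ d (MT U δ R k) (J + 1) (γ t) := by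
  have h00 : (0 : ℂ) ∈ ball (0 : ℂ) 1 := mem_ball_self one_pos
  have hU0 : 0 ≤ U := (norm_nonneg _).trans (hU 0 h00).1
  have hR0 : 0 ≤ R := (norm_nonneg _).trans (hR 0 h00)
  have hne : ∀ t ∈ ball (0 : ℂ) 1, a t - b t ≠ 0 := by
    intro t ht h
    have h1 := hab t ht
    rw [h, norm_zero] at h1
    linarith
  set g : ℂ → ℂ := fun t => (2 * P d (J + 1) (γ t) - (a t + b t)) / (a t - b t) with hg
  have hPd : DifferentiableOn ℂ (fun t => P d (J + 1) (γ t)) (ball 0 1) :=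
    (differentiable_P d (J + 1)).comp_differentiableOn hγ
  have hgd : DifferentiableOn ℂ g (ball 0 1) :=
    ((hPd.const_mul 2).sub (ha.add hb)).div (ha.sub hb) hne
  have hg1 : ∀ t ∈ ball (0 : ℂ) 1, g t ≠ 1 := by
    intro t ht h
    simp only [hg] at h
    rw [div_eq_one_iff_eq (hne t ht)] at h
    apply (hno t ht).1
    linear_combination h / 2
  have hg2 : ∀ t ∈ ball (0 : ℂ) 1, g t ≠ -1 := by
    intro t ht h
    simp only [hg] at h
    rw [div_eq_iff (hne t ht)] at h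
    apply (hno t ht).2
    linear_combination h / 2
  have hg0 : ‖g 0‖ ≤ (4 + 2 * U) / δ := by
    simp only [hg]
    rw [norm_div]
    apply div_le_div₀ (by positivity) _ hδ (hab 0 h00)
    have h1 := norm_sub_le (2 * P d (J + 1) (γ 0)) (a 0 + b 0)
    have h2 := norm_add_le (a 0) (b 0)
    rw [norm_mul] at h1
    have h3 : ‖(2 : ℂ)‖ = 2 := by simp
    rw [h3] at h1
    have h4 := (mem_multibrot_iff hd (γ 0)).mp hc (J + 1)
    have h5 := hU 0 h00
    linarith [h5.1, h5.2]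
  have hM0 : 0 ≤ (4 + 2 * U) / δ := by positivity
  set S : ℝ := SM ((4 + 2 * U) / δ) k with hS
  have hS0 : 0 ≤ S := SM_nonneg hM0 k
  intro t ht
  have htb : t ∈ ball (0 : ℂ) 1 := by
    rw [mem_ball_zero_iff]
    have : (0 : ℝ) < (3 / 4 : ℝ) ^ k := by positivity
    linarith
  have hgt := chain hgd hg1 hg2 hg0 k t ht
  have hlast : ‖P d (J + 1) (γ t)‖ ≤ (S + 1) * U := by
    have h1 : 2 * P d (J + 1) (γ t) = g t * (a t - b t) + (a t + b t) := by
      simp only [hg]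
      rw [div_mul_cancel₀ _ (hne t htb)]
      ring
    have h5 := hU t htb
    have h2 : ‖2 * P d (J + 1) (γ t)‖ ≤ S * (2 * U) + 2 * U := by
      rw [h1]
      refine (norm_add_le _ _).trans ?_
      rw [norm_mul]
      have h3 : ‖a t - b t‖ ≤ 2 * U := by
        have := norm_sub_le (a t) (b t)
        linarith [h5.1, h5.2]
      have h4 : ‖g t‖ * ‖a t - b t‖ ≤ S * (2 * U) := mul_le_mul hgt h3 (norm_nonneg _) hS0
      have h6 := norm_add_le (a t) (b t)
      linarith [h5.1, h5.2]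
    rw [norm_mul] at h2
    have h3 : ‖(2 : ℂ)‖ = 2 := by simp
    rw [h3] at h2
    linarith
  intro n hn1 hn2
  have hMT : MT U δ R k = (S + 1) * U + R + 3 := rfl
  by_contra hcon
  push Not at hcon
  have hSU : 0 ≤ (S + 1) * U := by positivity
  obtain ⟨j, hj⟩ : ∃ j, J + 1 = n + j := ⟨J + 1 - n, by omega⟩
  have h4 := grow hd (M := MT U δ R k) (by rw [hMT]; linarith) (c := γ t)
    (by rw [hMT]; linarith [hR t htb]) hcon j
  rw [← hj] at h4
  rw [hMT] at hcon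
  linarith

theorem one_le_MT {U δ R : ℝ} (hU : 0 ≤ U) (hδ : 0 < δ) (hR : 0 ≤ R) (k : ℕ) :
    1 ≤ MT U δ R k := by
  have hS0 : 0 ≤ SM ((4 + 2 * U) / δ) k := SM_nonneg (by positivity) k
  unfold MT
  have : 0 ≤ (SM ((4 + 2 * U) / δ) k + 1) * U := by positivity
  linarith

/-- The bound in the level inequality. -/
noncomputable def BB (d : ℕ) (c : ℂ) (s : ℝ) (a b : ℕ) : ℝ :=
  d / Real.pi * √((∫ z in GLev d c s, ‖z‖ ^ (2 * a)) * ∫ z in GLev d c s, ‖z‖ ^ (2 * b))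

/-- The nearest parameter at which the critical orbit hits one of two moving targets. -/
theorem nearest_two {d : ℕ} (hd : 2 ≤ d) {c₀ : ℂ} {ρ : ℝ} (hρ : 0 < ρ) {a b : ℂ → ℂ}
    (ha : DifferentiableOn ℂ a (ball c₀ (2 * ρ))) (hb : DifferentiableOn ℂ b (ball c₀ (2 * ρ)))
    {U δ R : ℝ} (hδ : 0 < δ) (hR0 : 0 ≤ R)
    (hU : ∀ t ∈ ball c₀ (2 * ρ), ‖a t‖ ≤ U ∧ ‖b t‖ ≤ U)
    (hab : ∀ t ∈ ball c₀ (2 * ρ), δ ≤ ‖a t - b t‖) (hR : ∀ t ∈ ball c₀ (2 * ρ), ‖t‖ ≤ R)
    {c : ℂ} (hc : c ∈ multibrotSet d) (hcb : ‖c - c₀‖ < ρ / 2) (J k : ℕ) {i j : ℕ}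
    (hij : i + j + 2 = d)
    (hsmall : BB d c (KG d (MT U δ R k) / (d : ℝ) ^ (J + 2)) i j <
      (1 - (3 / 4 : ℝ) ^ k) * (ρ / 2)) :
    ∃ c' ∈ ball c₀ ρ, (P d (J + 1) c' = a c' ∨ P d (J + 1) c' = b c') ∧
      (1 - (3 / 4 : ℝ) ^ k) * ‖c' - c‖ ≤ BB d c (KG d (MT U δ R k) / (d : ℝ) ^ (J + 2)) i j := by
  have hsub : closedBall c₀ ρ ⊆ ball c₀ (2 * ρ) := closedBall_subset_ball (by linarith)
  have hc₀ : c₀ ∈ ball c₀ (2 * ρ) := mem_ball_self (by linarith)
  have hU0 : 0 ≤ U := (norm_nonneg _).trans (hU c₀ hc₀).1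
  set Z : Set ℂ := {c' ∈ closedBall c₀ ρ |
    (P d (J + 1) c' - a c') * (P d (J + 1) c' - b c') = 0} with hZ
  have hZc : IsClosed Z := by
    have hcont : ContinuousOn (fun c' => (P d (J + 1) c' - a c') * (P d (J + 1) c' - b c'))
        (closedBall c₀ ρ) := by
      have h1 : Continuous (P d (J + 1)) := (differentiable_P d (J + 1)).continuous
      exact (h1.continuousOn.sub (ha.continuousOn.mono hsub)).mul
        (h1.continuousOn.sub (hb.continuousOn.mono hsub))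
    exact hcont.preimage_isClosed_of_isClosed isClosed_closedBall (isClosed_singleton (x := (0 : ℂ)))
  set W : Set ℂ := Z ∪ (ball c₀ ρ)ᶜ with hW
  have hWc : IsClosed W := hZc.union isOpen_ball.isClosed_compl
  have hWne : W.Nonempty := by
    refine ⟨c₀ + ρ, Or.inr ?_⟩
    rw [mem_compl_iff, mem_ball, dist_eq_norm, add_sub_cancel_left, Complex.norm_real,
      Real.norm_eq_abs, abs_of_pos hρ]
    exact lt_irrefl _
  obtain ⟨c', hc'W, hdist⟩ := hWc.exists_infDist_eq_dist hWne c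
  set r : ℝ := dist c c' with hr
  have hrn : ‖c' - c‖ = r := by rw [hr, dist_comm, dist_eq_norm]
  have hk1 : (3 / 4 : ℝ) ^ k ≤ 1 := pow_le_one₀ (by norm_num) (by norm_num)
  have hpi := Real.pi_pos
  have hBB0 : 0 ≤ BB d c (KG d (MT U δ R k) / (d : ℝ) ^ (J + 2)) i j := by
    unfold BB; positivity
  have hineq : (1 - (3 / 4 : ℝ) ^ k) * r ≤ BB d c (KG d (MT U δ R k) / (d : ℝ) ^ (J + 2)) i j := by
    rcases (dist_nonneg (x := c) (y := c')).eq_or_lt with h0 | h0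
    · rw [← hr] at h0
      rw [← h0, mul_zero]
      exact hBB0
    · rw [← hr] at h0
      have hder : deriv (fun t : ℂ => c + r * t) 0 = r := by
        have h4 : HasDerivAt (fun t : ℂ => c + (r : ℂ) * t) r 0 := by
          simpa using ((hasDerivAt_id (0 : ℂ)).const_mul (r : ℂ)).const_add c
        exact h4.deriv
      have hnotW : ∀ t ∈ ball (0 : ℂ) 1, c + r * t ∉ W := by
        intro t ht hmem
        rw [mem_ball_zero_iff] at ht
        have h2 : infDist c W ≤ dist c (c + r * t) := infDist_le_dist_of_mem hmem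
        rw [hdist, dist_eq_norm, show c - (c + r * t) = -(r * t) by ring, norm_neg, norm_mul,
          Complex.norm_real, Real.norm_eq_abs, abs_of_pos h0] at h2
        nlinarith
      have hin : ∀ t ∈ ball (0 : ℂ) 1, c + r * t ∈ ball c₀ ρ := by
        intro t ht
        by_contra hcon
        exact hnotW t ht (Or.inr hcon)
      have hin2 : ∀ t ∈ ball (0 : ℂ) 1, c + r * t ∈ ball c₀ (2 * ρ) := fun t ht =>
        hsub (ball_subset_closedBall (hin t ht))
      have h1 := disc_ineqG hij (J := J) (γ := fun t : ℂ => c + r * t) (by fun_prop)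
        (by simpa using hc) (M := MT U δ R k) (ρ := 1 - (3 / 4 : ℝ) ^ k)
        (one_le_MT hU0 hδ hR0 k) (by linarith)
        (by have : (0 : ℝ) < (3 / 4 : ℝ) ^ k := by positivity
            linarith)
        (disc_two hd (γ := fun t : ℂ => c + r * t) (by fun_prop) (by simpa using hc)
          (a := fun t => a (c + r * t)) (b := fun t => b (c + r * t))
          (ha.comp (by fun_prop) hin2) (hb.comp (by fun_prop) hin2) hδ
          (fun t ht => hU _ (hin2 t ht)) (fun t ht => hab _ (hin2 t ht))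
          (fun t ht => hR _ (hin2 t ht))
          (fun t ht => by
            have h3 := hnotW t ht
            have h4 : c + r * t ∈ closedBall c₀ ρ := ball_subset_closedBall (hin t ht)
            constructor
            · intro h5
              exact h3 (Or.inl ⟨h4, by rw [h5, sub_self, zero_mul]⟩)
            · intro h5
              exact h3 (Or.inl ⟨h4, by rw [h5, sub_self, mul_zero]⟩)) k)
      rw [hder, mul_zero, add_zero, Complex.norm_real, Real.norm_eq_abs, abs_of_pos h0] at h1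
      exact h1
  have hrsmall : r < ρ / 2 := by
    by_contra hcon
    push Not at hcon
    have := mul_le_mul_of_nonneg_left hcon (by linarith : (0 : ℝ) ≤ 1 - (3 / 4 : ℝ) ^ k)
    linarith
  have hc'b : c' ∈ ball c₀ ρ := by
    rw [mem_ball, dist_eq_norm]
    have h1 := norm_add_le (c' - c) (c - c₀)
    rw [sub_add_sub_cancel, hrn] at h1
    linarith
  refine ⟨c', hc'b, ?_, by rw [hrn]; exact hineq⟩
  rcases hc'W with h1 | h1
  · rcases mul_eq_zero.mp h1.2 with h2 | h2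
    · exact Or.inl (sub_eq_zero.mp h2)
    · exact Or.inr (sub_eq_zero.mp h2)
  · exact absurd hc'b h1

/-! ### Continuation of a repelling cycle and of a preimage -/

/-- `w` is a repelling periodic point of exact period `p`. -/
def Rep (d : ℕ) (c : ℂ) (p : ℕ) (w : ℂ) : Prop :=
  Function.minimalPeriod (fc d c) w = p ∧ 1 < ‖deriv ((fc d c)^[p]) w‖

/-- The data of the continuation: `w` is the continuation of `w₀`, and `u` is a preimage of `w`
with `f^p(u) = ζ u`, `u ≠ 0`. -/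
theorem exists_target {d : ℕ} (hd : 2 ≤ d) {c₀ w₀ ζ : ℂ} {p : ℕ} (hp : 1 ≤ p)
    (h : Rep d c₀ p w₀) (hζ : ζ ^ d = 1) {η : ℝ} (hη : 0 < η) :
    ∃ (ρ U : ℝ) (u : ℂ → ℂ), 0 < ρ ∧ DifferentiableOn ℂ u (ball c₀ ρ) ∧
      fc d c₀ (u c₀) = w₀ ∧ ∀ c ∈ ball c₀ ρ, ‖u c‖ ≤ U ∧ u c ≠ 0 ∧
        Rep d c p (fc d c (u c)) ∧ ‖fc d c (u c) - w₀‖ < η ∧ (fc d c)^[p] (u c) = ζ * u c := by
  obtain ⟨hmin, hrep⟩ := h
  have hper : (fc d c₀)^[p] w₀ = w₀ := by
    have := Function.isPeriodicPt_minimalPeriod (fc d c₀) w₀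
    rw [hmin] at this
    exact this
  have hζ0 : ζ ≠ 0 := by
    rintro rfl
    rw [zero_pow (by omega)] at hζ
    exact zero_ne_one hζ
  obtain ⟨ρ₀, w, hρ₀, hwd, hw0, hwp⟩ := exists_per_branch hper (by
    intro h1
    rw [h1, norm_one] at hrep
    exact lt_irrefl _ hrep)
  obtain ⟨q, rfl⟩ : ∃ q, p = q + 1 := ⟨p - 1, by omega⟩
  set v : ℂ → ℂ := fun c => (fc d c)^[q] (w c) with hv
  set u : ℂ → ℂ := fun c => ζ⁻¹ * v c with hu
  have hc₀b : c₀ ∈ ball c₀ ρ₀ := mem_ball_self hρ₀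
  have hpair : DifferentiableOn ℂ (fun c => (c, w c)) (ball c₀ ρ₀) :=
    differentiableOn_id.prodMk hwd
  have hvd : DifferentiableOn ℂ v (ball c₀ ρ₀) :=
    ((contDiff_It d q 1).differentiable (by norm_num)).comp_differentiableOn hpair
  have hud : DifferentiableOn ℂ u (ball c₀ ρ₀) := hvd.const_mul _
  have hfv : ∀ c ∈ ball c₀ ρ₀, v c ^ d + c = w c := by
    intro c hc
    have h1 := hwp c hc
    rw [Function.iterate_succ_apply'] at h1
    exact h1
  have hfu : ∀ c ∈ ball c₀ ρ₀, fc d c (u c) = w c := by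
    intro c hc
    have h1 : fc d c (u c) = (ζ⁻¹ * v c) ^ d + c := rfl
    rw [h1, mul_pow, inv_pow, hζ, inv_one, one_mul]
    exact hfv c hc
  have hpu : ∀ c ∈ ball c₀ ρ₀, (fc d c)^[q + 1] (u c) = ζ * u c := by
    intro c hc
    rw [Function.iterate_succ_apply, hfu c hc]
    have h1 : (fc d c)^[q] (w c) = v c := rfl
    rw [h1]
    simp only [hu]
    rw [mul_inv_cancel_left₀ hζ0]
  -- continuity at `c₀`
  have hwc : ContinuousAt w c₀ := (hwd.differentiableAt (ball_mem_nhds c₀ hρ₀)).continuousAt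
  have huc : ContinuousAt u c₀ := (hud.differentiableAt (ball_mem_nhds c₀ hρ₀)).continuousAt
  have hpc : ContinuousAt (fun c => (c, w c)) c₀ := continuousAt_id.prodMk hwc
  have hu0 : u c₀ ≠ 0 := by
    intro h0
    have hv0 : v c₀ = 0 := by
      have h1 : ζ⁻¹ * v c₀ = 0 := h0
      exact (mul_eq_zero.mp h1).resolve_left (inv_ne_zero hζ0)
    have h1 : deriv ((fc d c₀)^[q + 1]) w₀ = 0 := by
      have h2 : (fc d c₀)^[q + 1] = (fun z => z ^ d + c₀) ∘ ((fc d c₀)^[q]) := by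
        rw [Function.iterate_succ']; rfl
      have h3 : HasDerivAt ((fc d c₀)^[q]) (deriv ((fc d c₀)^[q]) w₀) w₀ :=
        (differentiable_iter d q c₀ w₀).hasDerivAt
      have h4 : HasDerivAt (fun z : ℂ => z ^ d + c₀) 0 ((fc d c₀)^[q] w₀) := by
        have h5 : (fc d c₀)^[q] w₀ = 0 := by rw [← hw0]; exact hv0
        rw [h5]
        have h6 := (hasDerivAt_pow d (0 : ℂ)).add_const c₀
        rw [zero_pow (by omega : d - 1 ≠ 0), mul_zero] at h6
        exact h6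
      rw [h2, (h4.comp w₀ h3).deriv, zero_mul]
    rw [h1, norm_zero] at hrep
    linarith
  have e1 : ∀ᶠ c in 𝓝 c₀, u c ≠ 0 := huc.eventually_ne hu0
  have e2 : ∀ᶠ c in 𝓝 c₀, ‖u c‖ < ‖u c₀‖ + 1 :=
    huc.norm.eventually_lt_const (by linarith)
  have e3 : ∀ᶠ c in 𝓝 c₀, ‖w c - w₀‖ < η := by
    have h1 : ContinuousAt (fun c => ‖w c - w₀‖) c₀ := (hwc.sub_const w₀).norm
    exact h1.eventually_lt_const (by simp only; rw [hw0, sub_self, norm_zero]; exact hη)
  have e4 : ∀ᶠ c in 𝓝 c₀, 1 < ‖deriv ((fc d c)^[q + 1]) (w c)‖ := by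
    have h1 : ContinuousAt (fun c => ‖deriv ((fc d c)^[q + 1]) (w c)‖) c₀ :=
      ((continuous_deriv_iter d (q + 1)).continuousAt.comp hpc).norm
    exact h1.eventually_const_lt (by simp only; rw [hw0]; exact hrep)
  have e5 : ∀ᶠ c in 𝓝 c₀, ∀ j ∈ Finset.Icc 1 q, (fc d c)^[j] (w c) ≠ w c := by
    rw [Filter.eventually_all_finset]
    intro j hj
    rw [Finset.mem_Icc] at hj
    have h1 : ContinuousAt (fun c => (fc d c)^[j] (w c) - w c) c₀ :=
      (((contDiff_It d j 1).continuous.continuousAt).comp hpc).sub hwc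
    have h2 : (fc d c₀)^[j] (w c₀) - w c₀ ≠ 0 := by
      rw [hw0]
      intro h3
      have h4 : Function.IsPeriodicPt (fc d c₀) j w₀ := sub_eq_zero.mp h3
      have h5 := h4.minimalPeriod_le (by omega)
      omega
    filter_upwards [h1.eventually_ne h2] with c hc
    exact sub_ne_zero.mp hc
  obtain ⟨ρ, hρ, hball⟩ := Metric.eventually_nhds_iff_ball.mp
    (((((e1.and e2).and e3).and e4).and e5).and (ball_mem_nhds c₀ hρ₀))
  have hsub : ball c₀ ρ ⊆ ball c₀ ρ₀ := fun c hc => (hball c hc).2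
  refine ⟨ρ, ‖u c₀‖ + 1, u, hρ, hud.mono hsub, ?_, ?_⟩
  · rw [hfu c₀ hc₀b, hw0]
  · intro c hc
    obtain ⟨⟨⟨⟨⟨g1, g2⟩, g3⟩, g4⟩, g5⟩, g6⟩ := hball c hc
    have g6' : c ∈ ball c₀ ρ₀ := g6
    refine ⟨g2.le, g1, ⟨?_, ?_⟩, ?_, hpu c g6'⟩
    · rw [hfu c g6']
      have h1 : Function.IsPeriodicPt (fc d c) (q + 1) (w c) := hwp c g6'
      have h2 := h1.minimalPeriod_le (by omega)
      have h3 : 0 < Function.minimalPeriod (fc d c) (w c) := h1.minimalPeriod_pos (by omega)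
      by_contra hne
      have h4 : Function.minimalPeriod (fc d c) (w c) ∈ Finset.Icc 1 q := by
        rw [Finset.mem_Icc]; omega
      exact g5 _ h4 (Function.isPeriodicPt_minimalPeriod (fc d c) (w c))
    · rw [hfu c g6']; exact g4
    · rw [hfu c g6']; exact g3

/-- A point `u ≠ 0` with `f^p(u) = ζ u`, `ζ ≠ 1`, `f(u)` of period `p`, is not periodic. -/
theorem not_periodic {d p : ℕ} {c u ζ : ℂ} (hp : 1 ≤ p) (hu : u ≠ 0) (hζ1 : ζ ≠ 1)
    (hw : (fc d c)^[p] (fc d c u) = fc d c u) (h : (fc d c)^[p] u = ζ * u) :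
    u ∉ Function.periodicPts (fc d c) := by
  rintro ⟨N, hN, hper⟩
  have h1 : (fc d c)^[p * N] u = u := (hper.const_mul p : Function.IsPeriodicPt (fc d c) (p * N) u)
  obtain ⟨M, rfl⟩ : ∃ M, N = M + 1 := ⟨N - 1, by omega⟩
  have h2 : ∀ M : ℕ, (fc d c)^[p * M] (fc d c u) = fc d c u := by
    intro M
    have h3 : Function.IsPeriodicPt (fc d c) p (fc d c u) := hw
    rw [mul_comm]
    exact h3.const_mul M
  obtain ⟨q, rfl⟩ : ∃ q, p = q + 1 := ⟨p - 1, by omega⟩
  have h3 : (fc d c)^[(q + 1) * (M + 1)] u = (fc d c)^[q + 1] u := by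
    have h4 : (q + 1) * (M + 1) = q + ((q + 1) * M + 1) := by ring
    rw [h4, Function.iterate_add_apply, Function.iterate_succ_apply, h2 M,
      Function.iterate_succ_apply]
  rw [h3, h] at h1
  have h5 : (ζ - 1) * u = 0 := by linear_combination h1
  rcases mul_eq_zero.mp h5 with h6 | h6
  · exact hζ1 (sub_eq_zero.mp h6)
  · exact hu h6

end Pool.Agent.Run7.h598.PP
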