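import Mathlib
import Pool.Agent.Run7.h598.PP.Mis

set_option autoImplicit false

open Complex Topology Filter Metric MeasureTheory Set N62a1eb23

namespace Pool.Agent.Run7.h598.PP

open Pool.Agent.H713R2 Pool.Agent.H712R2 Pool.Agent.H713R2.AR Pool.Agent.H548R3.MB

/-- The critical point is strictly preperiodic: preperiod `m`, the cycle is repelling of period `p`,
and `f^m(0)` is close to `w₁` or to `w₂`. -/
def Hit (d : ℕ) (p : ℕ) (w₁ w₂ ζ : ℂ) (η : ℝ) (m : ℕ) (c' : ℂ) : Prop :=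
  Rep d c' p ((fc d c')^[m] 0) ∧
    (‖(fc d c')^[m] 0 - w₁‖ < η ∨ ‖(fc d c')^[m] 0 - w₂‖ < η) ∧
    (fc d c')^[m - 1] 0 ∉ Function.periodicPts (fc d c') ∧
    (fc d c')^[m - 1 + p] 0 = ζ * (fc d c')^[m - 1] 0

theorem mis_main {d : ℕ} (hd : 2 ≤ d) {c₀ w₁ w₂ ζ : ℂ} {p : ℕ} (hp : 1 ≤ p)
    (h₁ : Rep d c₀ p w₁) (h₂ : Rep d c₀ p w₂) (hw : w₁ ≠ w₂) (hζ : ζ ^ d = 1) (hζ1 : ζ ≠ 1)
    {ε η : ℝ} (hε : 0 < ε) (hη : 0 < η) :
    ∃ ρ K : ℝ, 0 < ρ ∧ 0 < K ∧ ∀ c ∈ multibrotSet d, ‖c - c₀‖ < ρ → ∀ m : ℕ, 2 ≤ m →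
      ∀ a b : ℕ, a + b + 2 = d → (1 + ε) * BB d c (K / (d : ℝ) ^ m) a b < ρ →
      ∃ c' : ℂ, ‖c' - c‖ ≤ (1 + ε) * BB d c (K / (d : ℝ) ^ m) a b ∧
        Hit d p w₁ w₂ ζ η m c' := by
  obtain ⟨ρ₁, U₁, u₁, hρ₁, hu₁d, hu₁0, hu₁⟩ := exists_target hd hp h₁ hζ hη
  obtain ⟨ρ₂, U₂, u₂, hρ₂, hu₂d, hu₂0, hu₂⟩ := exists_target hd hp h₂ hζ hη
  have hne : u₁ c₀ - u₂ c₀ ≠ 0 := by
    intro h
    apply hw
    rw [← hu₁0, ← hu₂0, sub_eq_zero.mp h]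
  set δ : ℝ := ‖u₁ c₀ - u₂ c₀‖ / 2 with hδ
  have hδ0 : 0 < δ := by
    have := norm_pos_iff.mpr hne
    positivity
  have hcont : ContinuousAt (fun c => ‖u₁ c - u₂ c‖) c₀ :=
    (((hu₁d.differentiableAt (ball_mem_nhds c₀ hρ₁)).continuousAt).sub
      ((hu₂d.differentiableAt (ball_mem_nhds c₀ hρ₂)).continuousAt)).norm
  have hev : ∀ᶠ c in 𝓝 c₀, δ < ‖u₁ c - u₂ c‖ := by
    apply hcont.eventually_const_lt
    simp only
    rw [hδ]
    have := norm_pos_iff.mpr hne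
    linarith
  obtain ⟨ρ₃, hρ₃, hball⟩ := Metric.eventually_nhds_iff_ball.mp hev
  set ρ : ℝ := min (min ρ₁ ρ₂) ρ₃ / 2 with hρ
  have hρ0 : 0 < ρ := by positivity
  have hs1 : ball c₀ (2 * ρ) ⊆ ball c₀ ρ₁ := ball_subset_ball (by
    rw [hρ]
    have h1 := min_le_left (min ρ₁ ρ₂) ρ₃
    have h2 := min_le_left ρ₁ ρ₂
    linarith)
  have hs2 : ball c₀ (2 * ρ) ⊆ ball c₀ ρ₂ := ball_subset_ball (by
    rw [hρ]
    have h1 := min_le_left (min ρ₁ ρ₂) ρ₃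
    have h2 := min_le_right ρ₁ ρ₂
    linarith)
  have hs3 : ball c₀ (2 * ρ) ⊆ ball c₀ ρ₃ := ball_subset_ball (by
    rw [hρ]
    have h1 := min_le_right (min ρ₁ ρ₂) ρ₃
    linarith)
  set U : ℝ := max U₁ U₂ with hU
  set R : ℝ := ‖c₀‖ + 2 * ρ with hR
  have hR0 : 0 ≤ R := by positivity
  have hU0 : 0 ≤ U := by
    have h1 := (hu₁ c₀ (mem_ball_self hρ₁)).1
    exact (norm_nonneg _).trans (h1.trans (le_max_left _ _))
  obtain ⟨k, hk⟩ := exists_k hε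
  have hMT := one_le_MT hU0 hδ0 hR0 k
  have hdR : (2 : ℝ) ≤ d := by exact_mod_cast hd
  have hK0 : 0 < KG d (MT U δ R k) := by
    unfold KG
    have h1 : 0 < Real.log (MT U δ R k + 3) := Real.log_pos (by linarith)
    have h2 : 0 < Real.log 4 := Real.log_pos (by norm_num)
    positivity
  refine ⟨ρ / 2, KG d (MT U δ R k), by positivity, hK0, ?_⟩
  intro c hc hcb m hm a b hab hsmall
  obtain ⟨J, rfl⟩ : ∃ J, m = J + 2 := ⟨m - 2, by omega⟩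
  have hpos : (0 : ℝ) < (3 / 4 : ℝ) ^ k := by positivity
  have hsm : BB d c (KG d (MT U δ R k) / (d : ℝ) ^ (J + 2)) a b < (1 - (3 / 4 : ℝ) ^ k) * (ρ / 2) := by
    have h1 : ρ / 2 ≤ (1 + ε) * ((1 - (3 / 4 : ℝ) ^ k) * (ρ / 2)) := by
      calc ρ / 2 = 1 * (ρ / 2) := (one_mul _).symm
        _ ≤ ((1 + ε) * (1 - (3 / 4 : ℝ) ^ k)) * (ρ / 2) :=
            mul_le_mul_of_nonneg_right hk (by positivity)
        _ = _ := by ring
    have h2 := hsmall.trans_le h1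
    exact lt_of_mul_lt_mul_left h2 (by linarith)
  obtain ⟨c', hc'b, hhit, hdist⟩ := nearest_two hd hρ0 (hu₁d.mono hs1) (hu₂d.mono hs2) hδ0 hR0
    (U := U)
    (fun t ht => ⟨(hu₁ t (hs1 ht)).1.trans (le_max_left _ _),
      (hu₂ t (hs2 ht)).1.trans (le_max_right _ _)⟩)
    (fun t ht => (hball t (hs3 ht)).le)
    (fun t ht => by
      rw [mem_ball, dist_eq_norm] at ht
      have := norm_le_norm_add_norm_sub' t c₀
      rw [hR]; linarith) hc hcb J k hab hsm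
  have hc'2 : c' ∈ ball c₀ (2 * ρ) := ball_subset_ball (by linarith) hc'b
  refine ⟨c', scale hε (norm_nonneg _) hk hdist, ?_⟩
  have hP : ∀ j, P d j c' = (fc d c')^[j] 0 := fun j => rfl
  have hfin : ∀ u : ℂ, P d (J + 1) c' = u → u ≠ 0 → Rep d c' p (fc d c' u) →
      (fc d c')^[p] u = ζ * u → (fc d c')^[J + 2] 0 = fc d c' u ∧
      (fc d c')^[J + 2 - 1] 0 ∉ Function.periodicPts (fc d c') ∧
      (fc d c')^[J + 2 - 1 + p] 0 = ζ * (fc d c')^[J + 2 - 1] 0 := by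
    intro u hu hu0 hrep hz
    rw [hP] at hu
    have e1 : J + 2 - 1 = J + 1 := by omega
    rw [e1]
    refine ⟨?_, ?_, ?_⟩
    · rw [Function.iterate_succ_apply', hu]
    · rw [hu]
      have hper : (fc d c')^[p] (fc d c' u) = fc d c' u := by
        have := Function.isPeriodicPt_minimalPeriod (fc d c') (fc d c' u)
        rw [hrep.1] at this
        exact this
      exact not_periodic hp hu0 hζ1 hper hz
    · rw [add_comm (J + 1) p, Function.iterate_add_apply, hu]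
      exact hz
  rcases hhit with h | h
  · obtain ⟨g1, g2, g3, g4, g5⟩ := hu₁ c' (hs1 hc'2)
    obtain ⟨k1, k2, k3⟩ := hfin _ h g2 g3 g5
    unfold Hit
    rw [k1]
    exact ⟨g3, Or.inl g4, k2, k3⟩
  · obtain ⟨g1, g2, g3, g4, g5⟩ := hu₂ c' (hs2 hc'2)
    obtain ⟨k1, k2, k3⟩ := hfin _ h g2 g3 g5
    unfold Hit
    rw [k1]
    exact ⟨g3, Or.inr g4, k2, k3⟩

/-! ### Parameters with filled Julia set of area zero -/

theorem BB_le_vol {d : ℕ} (hd : 2 ≤ d) {c : ℂ} (hc2 : ‖c‖ ≤ 2) {s : ℝ} (hs0 : 0 < s)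
    (hs : s ≤ 1) : BB d c s (d - 2) 0 ≤
      d / Real.pi * ((4 * Real.exp 1) ^ (d - 2) * (volume (GLev d c s)).toReal) := by
  have hfin : volume (GLev d c s) ≠ ⊤ := (isCompact_GLev hd c s).measure_lt_top.ne
  have h1 := B_upper hd (α := 0) (C := (volume (GLev d c s)).toReal) hc2 hs0 hs (by
    rw [Real.rpow_zero, mul_one, ENNReal.ofReal_toReal hfin]
    exact le_rfl)
  rw [Real.rpow_zero, mul_one, abs_of_nonneg ENNReal.toReal_nonneg] at h1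
  exact h1

theorem level_tendsto {d : ℕ} (hd : 2 ≤ d) (c : ℂ) {K : ℝ} (hK : 0 < K) :
    Tendsto (fun m : ℕ => K / (d : ℝ) ^ m) atTop (𝓝 0) := by
  have hdR : (2 : ℝ) ≤ d := by exact_mod_cast hd
  have h1 : Tendsto (fun m : ℕ => (d : ℝ) ^ m) atTop atTop :=
    tendsto_pow_atTop_atTop_of_one_lt (by linarith)
  exact h1.const_div_atTop K

theorem iInter_GLev {d : ℕ} (hd : 2 ≤ d) {c : ℂ} (hc2 : ‖c‖ ≤ 2) {K : ℝ} (hK : 0 < K) :
    ⋂ m : ℕ, GLev d c (K / (d : ℝ) ^ m) ⊆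
      {z | ¬ Tendsto (fun k => (fc d c)^[k] z) atTop (Bornology.cobounded ℂ)} := by
  intro z hz
  rw [mem_iInter] at hz
  have h0 : green d c z ≤ 0 := by
    apply ge_of_tendsto (level_tendsto hd c hK)
    exact Filter.Eventually.of_forall fun m => hz m
  intro ht
  have hb : ∀ n, ‖(fc d c)^[n] z‖ ≤ 4 := by
    intro n
    have h5 := norm_iter_le hd (A := 2) (by norm_num) hc2 z n
    have h6 : (d : ℝ) ^ n * green d c z ≤ 0 := mul_nonpos_of_nonneg_of_nonpos (by positivity) h0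
    have h7 : Real.exp ((d : ℝ) ^ n * green d c z) ≤ 1 := Real.exp_le_one_iff.mpr h6
    linarith
  have h1 := ht.eventually (Bornology.isBounded_def.mp (isBounded_closedBall (x := (0 : ℂ)) (r := 4)))
  obtain ⟨n, hn⟩ := h1.exists
  apply hn
  rw [mem_closedBall_zero_iff]
  exact hb n

theorem vol_tendsto {d : ℕ} (hd : 2 ≤ d) {c : ℂ} (hc2 : ‖c‖ ≤ 2)
    (hvol : volume {z | ¬ Tendsto (fun k => (fc d c)^[k] z) atTop (Bornology.cobounded ℂ)} = 0)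
    {K : ℝ} (hK : 0 < K) :
    Tendsto (fun m : ℕ => (volume (GLev d c (K / (d : ℝ) ^ m))).toReal) atTop (𝓝 0) := by
  have hdR : (2 : ℝ) ≤ d := by exact_mod_cast hd
  have h1 : Tendsto (fun m : ℕ => volume (GLev d c (K / (d : ℝ) ^ m))) atTop
      (𝓝 (volume (⋂ m : ℕ, GLev d c (K / (d : ℝ) ^ m)))) := by
    apply tendsto_measure_iInter_atTop
    · intro m
      exact (isCompact_GLev hd c _).isClosed.measurableSet.nullMeasurableSet
    · intro m n hmn z hz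
      have h2 : green d c z ≤ K / (d : ℝ) ^ n := hz
      refine h2.trans ?_
      apply div_le_div_of_nonneg_left hK.le (by positivity)
      exact pow_le_pow_right₀ (by linarith) hmn
    · exact ⟨0, (isCompact_GLev hd c _).measure_lt_top.ne⟩
  have h2 : volume (⋂ m : ℕ, GLev d c (K / (d : ℝ) ^ m)) = 0 :=
    measure_mono_null (iInter_GLev hd hc2 hK) hvol
  rw [h2] at h1
  have h3 := (ENNReal.tendsto_toReal ENNReal.zero_ne_top).comp h1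
  rw [ENNReal.toReal_zero] at h3
  exact h3

theorem BB_tendsto {d : ℕ} (hd : 2 ≤ d) {c : ℂ} (hc2 : ‖c‖ ≤ 2)
    (hvol : volume {z | ¬ Tendsto (fun k => (fc d c)^[k] z) atTop (Bornology.cobounded ℂ)} = 0)
    {K : ℝ} (hK : 0 < K) :
    Tendsto (fun m : ℕ => BB d c (K / (d : ℝ) ^ m) (d - 2) 0) atTop (𝓝 0) := by
  have hpi := Real.pi_pos
  have h1 := vol_tendsto hd hc2 hvol hK
  have h2 : Tendsto (fun m : ℕ => d / Real.pi * ((4 * Real.exp 1) ^ (d - 2) *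
      (volume (GLev d c (K / (d : ℝ) ^ m))).toReal)) atTop (𝓝 0) := by
    have h3 := (h1.const_mul ((4 * Real.exp 1) ^ (d - 2))).const_mul (d / Real.pi)
    simpa using h3
  have h4 : ∀ᶠ m : ℕ in atTop, K / (d : ℝ) ^ m ≤ 1 := by
    filter_upwards [(level_tendsto hd c hK).eventually (gt_mem_nhds one_pos)] with m hm
    exact le_of_lt hm
  refine squeeze_zero' (Filter.Eventually.of_forall fun m => ?_) ?_ h2
  · unfold BB; positivity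
  · filter_upwards [h4] with m hm
    have hd0 : (0 : ℝ) < (d : ℝ) ^ m := by
      have : (0 : ℝ) < d := by
        have : 0 < d := by omega
        exact_mod_cast this
      positivity
    exact BB_le_vol hd hc2 (by positivity) hm

/-- Area zero: every large `m`. -/
theorem mis_zero {d : ℕ} (hd : 2 ≤ d) {c₀ w₁ w₂ ζ : ℂ} {p : ℕ} (hp : 1 ≤ p)
    (hc₀ : c₀ ∈ multibrotSet d) (h₁ : Rep d c₀ p w₁) (h₂ : Rep d c₀ p w₂) (hw : w₁ ≠ w₂)
    (hζ : ζ ^ d = 1) (hζ1 : ζ ≠ 1)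
    (hvol : volume {z | ¬ Tendsto (fun k => (fc d c₀)^[k] z) atTop (Bornology.cobounded ℂ)} = 0)
    {η : ℝ} (hη : 0 < η) :
    ∃ m₀ : ℕ, ∀ m : ℕ, m₀ ≤ m → ∃ c' : ℂ, ‖c' - c₀‖ < η ∧ Hit d p w₁ w₂ ζ η m c' := by
  have hcb := (mem_multibrot_iff hd c₀).mp hc₀
  have hc2 : ‖c₀‖ ≤ 2 := by have := hcb 1; rwa [P_one hd] at this
  obtain ⟨ρ, K, hρ, hK, hmain⟩ := mis_main hd hp h₁ h₂ hw hζ hζ1 one_pos hη
  have h1 := (BB_tendsto hd hc2 hvol hK).const_mul (1 + 1)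
  rw [mul_zero] at h1
  have h2 := (h1.eventually (gt_mem_nhds hρ)).and (h1.eventually (gt_mem_nhds hη))
  obtain ⟨m₁, hm₁⟩ := eventually_atTop.mp h2
  refine ⟨max m₁ 2, fun m hm => ?_⟩
  obtain ⟨h3, h4⟩ := hm₁ m ((le_max_left _ _).trans hm)
  obtain ⟨c', hc', hhit⟩ := hmain c₀ hc₀ (by rw [sub_self, norm_zero]; exact hρ) m
    ((le_max_right _ _).trans hm) (d - 2) 0 (by omega) h3
  exact ⟨c', hc'.trans_lt h4, hhit⟩

/-- Polynomial decay of the level sets: exponential rate, every large `m`. -/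
theorem mis_expo {d : ℕ} (hd : 2 ≤ d) {c₀ w₁ w₂ ζ : ℂ} {p : ℕ} (hp : 1 ≤ p)
    (hc₀ : c₀ ∈ multibrotSet d) (h₁ : Rep d c₀ p w₁) (h₂ : Rep d c₀ p w₂) (hw : w₁ ≠ w₂)
    (hζ : ζ ^ d = 1) (hζ1 : ζ ≠ 1) {α C : ℝ} (hα : 0 < α)
    (hv : ∀ s ∈ Ioc (0 : ℝ) 1, volume {z : ℂ | green d c₀ z ≤ s} ≤ ENNReal.ofReal (C * s ^ α))
    {η : ℝ} (hη : 0 < η) :
    ∃ (K : ℝ) (m₀ : ℕ), ∀ m : ℕ, m₀ ≤ m → ∃ c' : ℂ, ‖c' - c₀‖ ≤ K * ((d : ℝ) ^ m) ^ (-α) ∧
      Hit d p w₁ w₂ ζ η m c' := by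
  have hcb := (mem_multibrot_iff hd c₀).mp hc₀
  have hc2 : ‖c₀‖ ≤ 2 := by have := hcb 1; rwa [P_one hd] at this
  have hd0 : (0 : ℝ) < d := by
    have : 0 < d := by omega
    exact_mod_cast this
  obtain ⟨ρ, K, hρ, hK, hmain⟩ := mis_main hd hp h₁ h₂ hw hζ hζ1 one_pos hη
  set K₁ : ℝ := 2 * (d / Real.pi * ((4 * Real.exp 1) ^ (d - 2) * |C|)) with hK₁
  have hlev := level_tendsto hd c₀ hK
  have hup : ∀ᶠ m : ℕ in atTop, (1 + 1) * BB d c₀ (K / (d : ℝ) ^ m) (d - 2) 0 ≤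
      K₁ * (K / (d : ℝ) ^ m) ^ α := by
    filter_upwards [hlev.eventually (gt_mem_nhds one_pos)] with m hm
    have hs0 : 0 < K / (d : ℝ) ^ m := by positivity
    have h2 := B_upper hd hc2 hs0 (le_of_lt hm) (hv _ ⟨hs0, le_of_lt hm⟩)
    have h3 : BB d c₀ (K / (d : ℝ) ^ m) (d - 2) 0 ≤
      d / Real.pi * ((4 * Real.exp 1) ^ (d - 2) * |C|) * (K / (d : ℝ) ^ m) ^ α := h2
    have h4 : K₁ * (K / (d : ℝ) ^ m) ^ α =
      2 * (d / Real.pi * ((4 * Real.exp 1) ^ (d - 2) * |C|) * (K / (d : ℝ) ^ m) ^ α) := by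
      rw [hK₁]; ring
    rw [h4]
    linarith
  have hpow : Tendsto (fun m : ℕ => K₁ * (K / (d : ℝ) ^ m) ^ α) atTop (𝓝 0) := by
    have h1 : Tendsto (fun x : ℝ => x ^ α) (𝓝 0) (𝓝 ((0 : ℝ) ^ α)) :=
      (Real.continuousAt_rpow_const 0 α (Or.inr hα.le)).tendsto
    rw [Real.zero_rpow hα.ne'] at h1
    have h2 := (h1.comp hlev).const_mul K₁
    simpa using h2
  obtain ⟨m₁, hm₁⟩ := eventually_atTop.mp (hup.and (hpow.eventually (gt_mem_nhds hρ)))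
  refine ⟨K₁ * K ^ α, max m₁ 2, fun m hm => ?_⟩
  obtain ⟨h3, h4⟩ := hm₁ m ((le_max_left _ _).trans hm)
  obtain ⟨c', hc', hhit⟩ := hmain c₀ hc₀ (by rw [sub_self, norm_zero]; exact hρ) m
    ((le_max_right _ _).trans hm) (d - 2) 0 (by omega) (h3.trans_lt h4)
  refine ⟨c', ?_, hhit⟩
  have hdm : (0 : ℝ) < (d : ℝ) ^ m := by positivity
  have hdiv : K ^ α * ((d : ℝ) ^ m) ^ (-α) = (K / (d : ℝ) ^ m) ^ α := by
    rw [Real.div_rpow hK.le hdm.le, Real.rpow_neg hdm.le]; rfl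
  rw [mul_assoc, hdiv]
  exact hc'.trans h3

end Pool.Agent.Run7.h598.PP
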